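import Pool.Agent.Helper15.MD.LFT
import Pool.Agent.Helper15.MD.LIM
import Pool.Agent.Helper15.MD.EXT
import Pool.Agent.Helper15.MD.DIM
import Pool.Agent.Helper15.MD.BUR
import Pool.Agent.Helper15.MD.NT0
import Pool.Graph.R_seed8.W505.MZ.Delta

/-! The counterexample over `ℚ(√5)` of the library, with the lower bound `9` and `ρ̄ ^ 27 = 1`. -/

set_option autoImplicit false
set_option linter.style.haveILetI false

namespace Pool.Agent.Helper24.BC

open NumberField IsDedekindDomain MZ Pool.Agent.Helper15.MD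

theorem lft : S_LFT :=
  Pool.Agent.Helper15.MD.LFT.main Pool.Agent.Helper15.MD.LIM.main Pool.Agent.Helper15.MD.EXT.main
    Pool.Agent.Helper15.MD.DIM.main Pool.Agent.Helper15.MD.BUR.main

theorem cex :
    ∃ (k : Type) (_ : Field k) (_ : Finite k) (_ : CharP k 2) (ρbar : GFS Om S30 →* GL (Fin 3) k),
      IsOpen (ρbar.ker : Set (GFS Om S30)) ∧ AbsIrred ρbar ∧ (∀ g, ρbar g ^ 27 = 1) ∧
      ∀ (R : CNL 2 k) (ρu : GFS Om S30 →* GL (Fin 3) R.A), IsUniversal ρbar R ρu →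
        9 ≤ ringKrullDim (R.A ⧸ Ideal.span {((2 : ℕ) : R.A)}) := by
  have hK1 : StmK1 := Pool.Agent.W343.MZ.stmK1
  have hK2 : StmK2 := Pool.Agent.W343.MZ.stmK2
  have hK3 : StmK3 := Pool.Agent.W47.MZK3.k3
  have hK7 : StmK7 := Pool.Agent.W178.MZK.K7
  have hK4 : StmK4 := Pool.Agent.W368.MZK4.t_K4 hK3
  have hK5 : StmK5 := Pool.Agent.W266.MZK5.t_K5
  have hK6 : StmK6 := Pool.Agent.W178.MZK.K6
  have hK8 : StmK8 := Pool.Agent.W561.MZK8.stmK8 W289.MZ.stmFrat hK1 hK2 hK3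
  have hL : StmL := MZ294.stmL MZ413.stmN MZ413.stmM MZ413.stmP
  have hRho : StmRho := MZ294.stmRho hK7
  obtain ⟨hfd, hgal, h9, hreal, hunr, hNF, htwo⟩ := hL
  obtain ⟨k, ik, iFin, iP, ρbar, ω, hω, hρo, hρi, hρ27, hρs, hρT⟩ := hRho
  haveI : IsAlgClosure Lf Om := ⟨inferInstance, Algebra.IsAlgebraic.tower_top (K := F5) Lf⟩
  haveI hG1 : IsGalois F5 (Linf Lf Om) := hK1.2 F5 Lf Om hgal
  haveI hG2 : IsGalois Lf (Linf Lf Om) := hK1.2 Lf Lf Om inferInstance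
  haveI hG3 : IsGalois F5 (FSmax S30 : IntermediateField F5 Om) := hK7 F5 Om S30
  have hle : (Linf Lf Om).restrictScalars F5 ≤ FSmax S30 := hK6 F5 Om S30 two_mem_S30 Lf hunr
  let inc : (Linf Lf Om) →+* (FSmax S30 : IntermediateField F5 Om) :=
    { toFun := fun x => ⟨(x : Om), hle x.2⟩
      map_one' := rfl
      map_mul' := fun _ _ => rfl
      map_zero' := rfl
      map_add' := fun _ _ => rfl }
  letI : Algebra (Linf Lf Om) (FSmax S30 : IntermediateField F5 Om) := inc.toAlgebra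
  haveI : IsScalarTower F5 (Linf Lf Om) (FSmax S30 : IntermediateField F5 Om) :=
    IsScalarTower.of_algebraMap_eq (fun x => Subtype.ext rfl)
  -- √2
  obtain ⟨r₀, hr₀⟩ : ∃ r : Om, r ^ 2 = 2 := IsAlgClosed.exists_pow_nat_eq 2 (by norm_num)
  have hr₀mem : r₀ ∈ Linf Lf Om := by
    refine hK1.1 Lf Om 2 r₀ ?_ ⟨two_ne_zero, 1, ?_, ?_⟩ hr₀
    · have := (Linf Lf Om).algebraMap_mem (2 : Lf)
      rwa [map_ofNat] at this
    · have : (2 ^ 1 * 2 : Om) = algebraMap ℤ Om 4 := by norm_num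
      rw [this]; exact isIntegral_algebraMap
    · have : (2 ^ 1 * 2⁻¹ : Om) = 1 := by norm_num
      rw [this]; exact isIntegral_one
  have hr2 : (⟨r₀, hr₀mem⟩ : Linf Lf Om) ^ 2 = 2 := Subtype.ext hr₀
  have hrn : (⟨r₀, hr₀mem⟩ : Linf Lf Om) ∉ (algebraMap Lf (Linf Lf Om)).range := by
    rintro ⟨x, hx⟩
    refine no_sqrt2_Lf h9 x ?_
    apply (algebraMap Lf (Linf Lf Om)).injective
    rw [map_pow, hx, hr2, map_ofNat]
  obtain ⟨D, hDj, hDr, -⟩ := Pool.Agent.Helper15.MD.NT0.main F5 Lf (Linf Lf Om)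
    (FSmax S30 : IntermediateField F5 Om) h9 hreal ⟨r₀, hr₀mem⟩ hr2 hrn (hK2 Lf Om)
    (fun φ c h1 h2 N hN hNo => by
      have e1 := hK4 Lf Om N hNo
      rw [hK5 Lf Om hreal φ c h1 h2 N hN hNo] at e1
      exact e1)
    (fun φ c σ h1 h2 h3 => hK8 Lf Om hreal htwo φ c σ h1 h2 h3)
  refine ⟨k, ik, iFin, iP, ρbar, hρo, hρi, hρ27, fun R ρu hu => ?_⟩
  have hsc : Scal D ρbar := by
    intro g hg
    apply hρs g
    intro x hx
    rw [hDr, hDj] at hg
    obtain ⟨q, hq⟩ := hg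
    have h1 : (algebraMap (Linf Lf Om) (FSmax S30 : IntermediateField F5 Om))
        ((AlgEquiv.restrictNormalHom (F := F5) (K₁ := (FSmax S30 : IntermediateField F5 Om))
          (Linf Lf Om) g) (algebraMap Lf (Linf Lf Om) ⟨x, hx⟩)) =
        g (algebraMap (Linf Lf Om) (FSmax S30 : IntermediateField F5 Om)
          (algebraMap Lf (Linf Lf Om) ⟨x, hx⟩)) :=
      AlgEquiv.restrictNormal_commutes g (Linf Lf Om) _
    rw [← hq] at h1
    have h2 : (jR F5 Lf (Linf Lf Om) q) (algebraMap Lf (Linf Lf Om) ⟨x, hx⟩) =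
        algebraMap Lf (Linf Lf Om) ⟨x, hx⟩ := by
      show q (algebraMap Lf (Linf Lf Om) ⟨x, hx⟩) = _
      exact q.commutes _
    rw [h2] at h1
    have h3 : (algebraMap (Linf Lf Om) (FSmax S30 : IntermediateField F5 Om))
          (algebraMap Lf (Linf Lf Om) ⟨x, hx⟩) = x := Subtype.ext rfl
    rw [h3] at h1
    exact h1.symm
  have h := lft _ _ _ _ _ D k ρbar hρo hρi hsc R ρu hu
  have h4 : Fintype.card (F5 →+* ℂ) = 2 := by
    rw [NumberField.Embeddings.card]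
    exact Pool.Agent.W505.MZ.finrank_F5
  rw [h4] at h
  exact_mod_cast h

end Pool.Agent.Helper24.BC
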