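import Pool.Agent.Helper24.BC.Fin

/-! # Number fields containing a square root of 5 -/

set_option autoImplicit false
set_option linter.style.haveILetI false

namespace Pool.Agent.Helper24.BC

open NumberField IsDedekindDomain MZ

/-- elements fixed by the image of the restriction lie in the base field -/
theorem fixed_mem {F Ω F' : Type} [Field F] [NumberField F] [Field Ω] [Algebra F Ω]
    [IsAlgClosure F Ω] [Field F'] [NumberField F'] [Algebra F F'] [Algebra F' Ω]
    [IsScalarTower F F' Ω] (S : Set (HeightOneSpectrum (𝓞 F)))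
    (S' : Set (HeightOneSpectrum (𝓞 F'))) (hS : Above S S')
    (φ : GFS Ω S' →* GFS Ω S) (hφ : IsRestr S S' φ) (x : (FSmax S : IntermediateField F Ω))
    (hx : ∀ g, φ g x = x) : ∃ y : F', algebraMap F' Ω y = x := by
  haveI : IsAlgClosure F' Ω := ⟨IsAlgClosure.isAlgClosed F, by
    haveI : Algebra.IsAlgebraic F Ω := IsAlgClosure.isAlgebraic
    exact Algebra.IsAlgebraic.tower_top (K := F) F'⟩
  haveI h2 : IsGalois F' (FSmax S' : IntermediateField F' Ω) := Pool.Agent.W178.MZK.K7 F' Ω S'
  have h1 : (⟨(x : Ω), fsmax_le S S' hS (x : Ω) x.2⟩ : (FSmax S' : IntermediateField F' Ω)) ∈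
      Set.range (algebraMap F' (FSmax S' : IntermediateField F' Ω)) := by
    rw [InfiniteGalois.mem_range_algebraMap_iff_fixed]
    intro g
    apply Subtype.ext
    rw [← hφ g x ⟨(x : Ω), fsmax_le S S' hS (x : Ω) x.2⟩ rfl, hx g]
  obtain ⟨y, hy⟩ := h1
  exact ⟨y, congrArg Subtype.val hy⟩

/-- a proper subgroup of a finite 3-group lies in a subgroup of index 3 -/
theorem exists_index3 {P : Type} [Group P] [Finite P] (hP : IsPGroup 3 P) (T : Subgroup P)
    (hT : T ≠ ⊤) : ∃ M : Subgroup P, T ≤ M ∧ M.index = 3 := by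
  haveI : Fact (Nat.Prime 3) := ⟨Nat.prime_three⟩
  obtain ⟨a, ha⟩ := IsPGroup.iff_card.1 hP
  obtain ⟨n, hn⟩ := IsPGroup.iff_card.1 (hP.to_subgroup T)
  have h1 : Nat.card T < Nat.card P := by
    refine lt_of_le_of_ne (Nat.le_of_dvd Nat.card_pos (Subgroup.card_subgroup_dvd_card T)) ?_
    intro h
    exact hT ((Subgroup.card_eq_iff_eq_top T).1 h)
  rw [ha, hn] at h1
  have h2 : n < a := (Nat.pow_lt_pow_iff_right (by norm_num)).1 h1
  obtain ⟨b, rfl⟩ : ∃ b, a = b + 1 := ⟨a - 1, by omega⟩
  obtain ⟨M, hM, hTM⟩ := Sylow.exists_subgroup_card_pow_prime_le 3 (n := n) (m := b)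
    (by rw [ha]; exact pow_dvd_pow 3 (by omega)) T hn (by omega)
  refine ⟨M, hTM, ?_⟩
  have h3 := M.index_mul_card
  rw [hM, ha, pow_succ'] at h3
  exact Nat.eq_of_mul_eq_mul_right (by positivity) h3

section bad

variable {k : Type} [Field k] (ρ : GFS Om S30 →* GL (Fin 3) k)

/-- the preimage of a subgroup of the image -/
noncomputable def UM (M : Subgroup ρ.range) : Subgroup (GFS Om S30) := M.comap ρ.rangeRestrict

/-- the cubic extension of `ℚ(√5)` which belongs to a subgroup of index 3 of the image -/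
noncomputable def NM (M : Subgroup ρ.range) :
    IntermediateField F5 (FSmax S30 : IntermediateField F5 Om) :=
  IntermediateField.fixedField (UM ρ M)

/-- the same field inside `ℚ̄` -/
noncomputable def NO (M : Subgroup ρ.range) : IntermediateField ℚ Om :=
  ((NM ρ M).map (FSmax S30 : IntermediateField F5 Om).val).restrictScalars ℚ

theorem UM_index (M : Subgroup ρ.range) : (UM ρ M).index = M.index :=
  Subgroup.index_comap_of_surjective M ρ.rangeRestrict_surjective

theorem UM_open (ho : IsOpen (ρ.ker : Set (GFS Om S30))) (M : Subgroup ρ.range) :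
    IsOpen (UM ρ M : Set (GFS Om S30)) := by
  refine Subgroup.isOpen_mono ?_ ho
  intro g hg
  show ρ.rangeRestrict g ∈ M
  have : ρ.rangeRestrict g = 1 := Subtype.ext hg
  rw [this]
  exact one_mem M

theorem NM_finrank (ho : IsOpen (ρ.ker : Set (GFS Om S30))) (M : Subgroup ρ.range) :
    Module.finrank F5 (NM ρ M) = M.index := by
  haveI h1 : IsGalois F5 (FSmax S30 : IntermediateField F5 Om) := Pool.Agent.W178.MZK.K7 F5 Om S30
  let R : ClosedSubgroup (GFS Om S30) :=
    ⟨UM ρ M, Subgroup.isClosed_of_isOpen _ (UM_open ρ ho M)⟩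
  have hN : (NM ρ M).fixingSubgroup = UM ρ M := InfiniteGalois.fixingSubgroup_fixedField R
  rw [IntermediateField.finrank_eq_fixingSubgroup_index, hN, UM_index]

theorem NO_finrank (ho : IsOpen (ρ.ker : Set (GFS Om S30))) (M : Subgroup ρ.range)
    (hM : M.index = 3) : Module.finrank ℚ (NO ρ M) = 6 := by
  have h1 : Module.finrank F5 ((NM ρ M).map (FSmax S30 : IntermediateField F5 Om).val) = 3 := by
    rw [← hM, ← NM_finrank ρ ho M]
    exact (LinearEquiv.finrank_eq ((NM ρ M).equivMap
      (FSmax S30 : IntermediateField F5 Om).val).toLinearEquiv).symm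
  have h2 : Module.finrank ℚ (NO ρ M) =
      Module.finrank ℚ ((NM ρ M).map (FSmax S30 : IntermediateField F5 Om).val) := rfl
  rw [h2, ← Module.finrank_mul_finrank ℚ F5, h1, Pool.Agent.W505.MZ.finrank_F5]

end bad

end Pool.Agent.Helper24.BC
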