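import Pool.Agent.Helper24.BC.Gen
import Pool.Graph.R_seed8.W413.MZ.H1
import Pool.Graph.R_seed8.W178.MZ.K6

/-!
# The maximal extension unramified outside `S` and extension of the base field
-/

set_option autoImplicit false

namespace Pool.Agent.Helper24.BC

open NumberField IsDedekindDomain MZ MZ413

variable {F Ω F' : Type} [Field F] [NumberField F] [Field Ω] [Algebra F Ω] [IsAlgClosure F Ω]
  [Field F'] [NumberField F'] [Algebra F F'] [Algebra F' Ω] [IsScalarTower F F' Ω]

omit [IsAlgClosure F Ω] in
theorem step (S : Set (HeightOneSpectrum (𝓞 F))) (S' : Set (HeightOneSpectrum (𝓞 F')))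
    (hS : ∀ w : HeightOneSpectrum (𝓞 F'),
      (∃ v ∈ S, w.asIdeal.comap (algebraMap (𝓞 F) (𝓞 F')) = v.asIdeal) → w ∈ S')
    (M : IntermediateField F Ω) [FiniteDimensional F M] [IsGalois F M]
    (M' : IntermediateField F' Ω) (hM' : M' = IntermediateField.adjoin F' (M : Set Ω))
    [FiniteDimensional F' M'] [IsGalois F' M']
    (h : UnramifiedOutside S M) : UnramifiedOutside S' M' := by
  classical
  have hle : ∀ x ∈ M, x ∈ M' := by
    intro x hx
    rw [hM']
    exact IntermediateField.subset_adjoin _ _ hx
  have : CharZero Ω := charZero_of_injective_algebraMap (algebraMap F Ω).injective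
  have hN : NumberField M := NumberField.of_module_finite F M
  have hN' : NumberField M' := NumberField.of_module_finite F' M'
  let _ : Algebra M M' :=
    ({ toFun := fun x => ⟨(x : Ω), hle x x.2⟩
       map_one' := rfl
       map_mul' := fun _ _ => rfl
       map_zero' := rfl
       map_add' := fun _ _ => rfl } : M →+* M').toAlgebra
  have hcoe : ∀ x : M, ((algebraMap M M' x : M') : Ω) = x := fun x => rfl
  have hst : IsScalarTower F M M' := IsScalarTower.of_algebraMap_eq fun x => by
    apply Subtype.ext
    rfl
  have hst2 : IsScalarTower F F' M' := inferInstance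
  refine unram_of_fix S' M' M' le_rfl ?_
  intro P hPp hP hPS g hg x hx
  -- the restriction of `g` to `M`
  let g0 : M' ≃ₐ[F] M' := g.restrictScalars F
  let gM : M ≃ₐ[F] M := g0.restrictNormal M
  have hgM : ∀ y : M, algebraMap M M' (gM y) = g (algebraMap M M' y) := fun y =>
    g0.restrictNormal_commutes M y
  have hfinMM' : Algebra.IsIntegral (𝓞 M) (𝓞 M') := inferInstance
  let PM : Ideal (𝓞 M) := P.comap (algebraMap (𝓞 M) (𝓞 M'))
  have hPMp : PM.IsPrime := hPp.comap _
  have hPM : PM ≠ ⊥ := mt Ideal.eq_bot_of_comap_eq_bot hP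
  have hin : InInertia PM gM := by
    intro a b hab
    show algebraMap (𝓞 M) (𝓞 M') (b - a) ∈ P
    rw [map_sub]
    apply hg
    show algebraMap M M' (b : M) = g (algebraMap M M' (a : M))
    rw [← hgM, hab]
  have hS2 : ∀ v ∈ S, PM.comap (algebraMap (𝓞 F) (𝓞 M)) ≠ v.asIdeal := by
    intro v hv heq
    have hp : (P.comap (algebraMap (𝓞 F') (𝓞 M'))).IsPrime := hPp.comap _
    have hne : P.comap (algebraMap (𝓞 F') (𝓞 M')) ≠ ⊥ := by
      have : Algebra.IsIntegral (𝓞 F') (𝓞 M') := inferInstance
      exact mt Ideal.eq_bot_of_comap_eq_bot hP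
    let u : HeightOneSpectrum (𝓞 F') := ⟨_, hp, hne⟩
    have hu : u ∈ S' := by
      apply hS
      refine ⟨v, hv, ?_⟩
      rw [← heq]
      show Ideal.comap (algebraMap (𝓞 F) (𝓞 F')) (Ideal.comap (algebraMap (𝓞 F') (𝓞 M')) P) =
        Ideal.comap (algebraMap (𝓞 F) (𝓞 M)) (Ideal.comap (algebraMap (𝓞 M) (𝓞 M')) P)
      rw [Ideal.comap_comap, Ideal.comap_comap]
      congr 1
      ext y
      show algebraMap F' Ω (algebraMap F F' (y : F)) = algebraMap F Ω (y : F)
      rw [← IsScalarTower.algebraMap_apply]
    exact hPS u hu rfl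
  have hfix : ∀ y : M, gM y = y := by
    intro y
    have h1 := fix_of_unram S M M le_rfl h PM hPM hS2 gM hin (y : Ω) y.2
    exact Subtype.ext h1
  have hall : ∀ y : M', g y = y := by
    -- the fixed field of `g` contains `M`
    let T : IntermediateField F' M' := IntermediateField.fixedField (Subgroup.zpowers g)
    have hT : ∀ y : M', y ∈ T → g y = y := by
      intro y hy
      exact hy ⟨g, Subgroup.mem_zpowers g⟩
    have hMT : ∀ y : M, algebraMap M M' y ∈ T := by
      intro y
      rintro ⟨t, ht⟩
      obtain ⟨n, rfl⟩ := Subgroup.mem_zpowers_iff.1 ht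
      have h1 : g (algebraMap M M' y) = algebraMap M M' y := by rw [← hgM, hfix]
      have h2 : g ∈ MulAction.stabilizer Gal(M'/F') (algebraMap M M' y) := h1
      exact Subgroup.zpow_mem _ h2 n
    have hlift : M' ≤ IntermediateField.lift T := by
      conv_lhs => rw [hM']
      rw [IntermediateField.adjoin_le_iff]
      intro y hy
      exact (IntermediateField.mem_lift (⟨y, hle y hy⟩ : M')).2 (hMT ⟨y, hy⟩)
    intro y
    apply hT
    exact (IntermediateField.mem_lift y).1 (hlift y.2)
  have h1 := hall ⟨x, hx⟩
  exact congrArg (fun z : M' => (z : Ω)) h1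

/-- the maximal extension of `F` unramified outside `S` lies in the one of `F'` -/
theorem fsmax_le (S : Set (HeightOneSpectrum (𝓞 F))) (S' : Set (HeightOneSpectrum (𝓞 F')))
    (hS : ∀ w : HeightOneSpectrum (𝓞 F'),
      (∃ v ∈ S, w.asIdeal.comap (algebraMap (𝓞 F) (𝓞 F')) = v.asIdeal) → w ∈ S')
    (x : Ω) (hx : x ∈ (FSmax S : IntermediateField F Ω)) :
    x ∈ (FSmax S' : IntermediateField F' Ω) := by
  classical
  have : CharZero Ω := charZero_of_injective_algebraMap (algebraMap F Ω).injective
  have hgal : IsGalois F (FSmax S : IntermediateField F Ω) := Pool.Agent.W178.MZK.K7 F Ω S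
  have halg : Algebra.IsAlgebraic F Ω := IsAlgClosure.isAlgebraic
  have hac : IsAlgClosed Ω := IsAlgClosure.isAlgClosed F
  have hFF' : FiniteDimensional F F' := by
    have : FiniteDimensional ℚ F' := inferInstance
    exact Module.Finite.of_restrictScalars_finite ℚ F F'
  have halg' : Algebra.IsAlgebraic F' Ω := Algebra.IsAlgebraic.tower_top (K := F) F'
  -- the normal closure of `F(x)`
  let K1 : IntermediateField F Ω := IntermediateField.adjoin F {x}
  have hK1 : FiniteDimensional F K1 :=
    IntermediateField.adjoin.finiteDimensional (Algebra.IsIntegral.isIntegral x)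
  have hnΩ : Normal F Ω := by
    have : IsAlgClosure F Ω := inferInstance
    exact IsAlgClosure.normal F Ω
  let M : IntermediateField F Ω := IntermediateField.normalClosure F K1 Ω
  have hMn : Normal F M := inferInstance
  have hMf : FiniteDimensional F M := inferInstance
  have hMg : IsGalois F M := IsGalois.mk
  have hxM : x ∈ M := by
    have h1 : K1 ≤ M := IntermediateField.le_normalClosure K1
    exact h1 (IntermediateField.mem_adjoin_simple_self F x)
  have hMS : M ≤ FSmax S := by
    have h1 : K1 ≤ FSmax S := by
      rw [IntermediateField.adjoin_le_iff]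
      rintro y rfl
      exact hx
    have hnS : Normal F (FSmax S : IntermediateField F Ω) := inferInstance
    calc M ≤ IntermediateField.normalClosure F (FSmax S : IntermediateField F Ω) Ω :=
          IntermediateField.normalClosure_mono _ _ h1
      _ = FSmax S := IntermediateField.normalClosure_of_normal _
  have hunr : UnramifiedOutside S M := stmExH1 F Ω S M hMf hMS
  let M' : IntermediateField F' Ω := IntermediateField.adjoin F' (M : Set Ω)
  have hM'f : FiniteDimensional F' M' := by
    obtain ⟨x0, hx0⟩ := Field.exists_primitive_element F M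
    have ht : IntermediateField.adjoin F ({(x0 : Ω)} : Set Ω) = M := by
      have h1 := congrArg (IntermediateField.map M.val) hx0
      rw [IntermediateField.adjoin_map] at h1
      have h2 : IntermediateField.map M.val ⊤ = M := by
        rw [← AlgHom.fieldRange_eq_map]
        exact M.fieldRange_val
      rw [h2, Set.image_singleton] at h1
      exact h1
    have h1 : M' = IntermediateField.adjoin F' ({(x0 : Ω)} : Set Ω) := by
      apply le_antisymm
      · rw [IntermediateField.adjoin_le_iff]
        intro y hy
        have h2 : M ≤ (IntermediateField.adjoin F' ({(x0 : Ω)} : Set Ω)).restrictScalars F := by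
          refine ht.symm.le.trans ?_
          rw [IntermediateField.adjoin_le_iff]
          intro z hz
          exact IntermediateField.subset_adjoin F' _ hz
        exact h2 hy
      · rw [IntermediateField.adjoin_le_iff]
        intro y hy
        apply IntermediateField.subset_adjoin
        exact ht.le (IntermediateField.subset_adjoin F _ hy)
    rw [h1]
    exact IntermediateField.adjoin.finiteDimensional (Algebra.IsIntegral.isIntegral _)
  have hnΩ' : Normal F' Ω := by
    have : IsAlgClosure F' Ω := ⟨hac, halg'⟩
    exact IsAlgClosure.normal F' Ω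
  have hM'n : Normal F' M' := by
    rw [IntermediateField.normal_iff_forall_map_le']
    intro σ
    have h1 := (IntermediateField.normal_iff_forall_map_le' (K := M)).1 hMn (σ.restrictScalars F)
    rw [IntermediateField.adjoin_map, IntermediateField.adjoin_le_iff]
    rintro _ ⟨y, hy, rfl⟩
    apply IntermediateField.subset_adjoin
    exact h1 ⟨y, hy, rfl⟩
  have hM'g : IsGalois F' M' := IsGalois.mk
  have h2 := step S S' hS M M' rfl hunr
  have h3 : M' ≤ FSmax S' := le_iSup (fun K : {K : IntermediateField F' Ω //
    FiniteDimensional F' K ∧ UnramifiedOutside S' K} => K.1) ⟨M', hM'f, h2⟩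
  exact h3 (IntermediateField.subset_adjoin _ _ hxM)

end Pool.Agent.Helper24.BC
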