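import Pool.Agent.Helper24.BC.Cex
import Pool.Agent.Helper24.BC.Unr
import Pool.Agent.Helper15.MD.GRP
import Pool.Agent.Helper15.MD.FLD
import Pool.Agent.Helper15.MD.FIN

/-!
# The layers `F_m` over `ℚ(√5)` (after `FIN.lean`, `FLD.lean` of helper15 and helper64), with more
information: the places, and the exponent 27 of the image
-/

set_option autoImplicit false
set_option linter.style.haveILetI false

namespace Pool.Agent.Helper24.BC

open NumberField IsDedekindDomain IsLocalRing MZ Pool.Agent.Helper15.MD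
open Pool.Agent.Helper15.MD.FLD (tower1 finite_above real_of_conj)

/-- the places of `F'` above `S` -/
def abv {F : Type} [Field F] [NumberField F] (F' : Type) [Field F'] [NumberField F']
    [Algebra F F'] (S : Set (HeightOneSpectrum (𝓞 F))) : Set (HeightOneSpectrum (𝓞 F')) :=
  {w | ∃ v ∈ S, w.asIdeal.comap (algebraMap (𝓞 F) (𝓞 F')) = v.asIdeal}

/-- FLD with an explicit set of places. -/
theorem fld2 (F Ω E : Type) [Field F] [NumberField F] [Field Ω] [Algebra F Ω] [IsAlgClosure F Ω]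
    [Field E] [Algebra F E] [Algebra E Ω] [IsScalarTower F E Ω] [IsGalois F E]
    (S : Set (HeightOneSpectrum (𝓞 F))) [Algebra E (FSmax S : IntermediateField F Ω)]
    [IsScalarTower F E (FSmax S : IntermediateField F Ω)]
    (hcomp : ∀ x : E, ((algebraMap E (FSmax S : IntermediateField F Ω) x : FSmax S) : Ω) =
      algebraMap E Ω x)
    (H : Subgroup Gal(E/F)) (hHo : IsOpen (H : Set Gal(E/F))) (d : ℕ) (hd : H.index = d)
    (hd0 : d ≠ 0) (hconj : ∀ φ : E →+* ℂ, ∃ c ∈ H, ComplexEmbedding.IsConj φ c) :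
    ∃ (F' : Type) (_ : Field F') (_ : NumberField F') (_ : Algebra F' Ω) (_ : IsAlgClosure F' Ω)
      (_ : Algebra F F') (_ : IsScalarTower F F' Ω)
      (r : GFS Ω (abv F' S) →* GFS Ω S) (r' : GFS Ω (abv F' S) →* H),
      Module.finrank F F' = d ∧ (∀ v : InfinitePlace F', v.IsReal) ∧
      Continuous r ∧ Continuous r' ∧ Function.Surjective r' ∧
      (∀ g, ((r' g : H) : Gal(E/F)) =
        AlgEquiv.restrictNormalHom (F := F) (K₁ := (FSmax S : IntermediateField F Ω)) E (r g)) ∧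
      ∀ h : GFS Ω S, AlgEquiv.restrictNormalHom (F := F)
        (K₁ := (FSmax S : IntermediateField F Ω)) E h ∈ H → ∃ g, r g = h := by
  have hcl : IsClosed (H : Set Gal(E/F)) := H.isClosed_of_isOpen hHo
  have hHfix : (IntermediateField.fixedField H).fixingSubgroup = H :=
    InfiniteGalois.fixingSubgroup_fixedField ⟨H, hcl⟩
  have hfr : Module.finrank F (IntermediateField.fixedField H) = d := by
    rw [IntermediateField.finrank_eq_fixingSubgroup_index, hHfix, hd]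
  have hfd : FiniteDimensional F (IntermediateField.fixedField H) :=
    Module.finite_of_finrank_pos (by rw [hfr]; omega)
  obtain ⟨F', f1, f2, f3, f4, f5, f6, f7⟩ : ∃ (F' : Type) (_ : Field F') (_ : Algebra F F')
      (_ : Algebra F' E) (_ : IsScalarTower F F' E), Module.finrank F F' = d ∧
      FiniteDimensional F F' ∧
      ∀ g : Gal(E/F), g ∈ H ↔ ∀ x : F', g (algebraMap F' E x) = algebraMap F' E x := by
    refine ⟨IntermediateField.fixedField H, inferInstance, inferInstance, inferInstance,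
      inferInstance, hfr, hfd, fun g => ?_⟩
    conv_lhs => rw [← hHfix]
    rw [IntermediateField.mem_fixingSubgroup_iff]
    constructor
    · intro h x
      exact h x.1 x.2
    · intro h x hx
      exact h ⟨x, hx⟩
  have hch : CharZero F' := charZero_of_injective_algebraMap (algebraMap F F').injective
  have nF' : NumberField F' := by
    have h1 : FiniteDimensional ℚ F' := Module.Finite.trans F F'
    exact { to_charZero := hch, to_finiteDimensional := h1 }
  let aΩ : Algebra F' Ω := ((algebraMap E Ω).comp (algebraMap F' E)).toAlgebra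
  have t1 : IsScalarTower F' E Ω := IsScalarTower.of_algebraMap_eq fun x => rfl
  have t2 : IsScalarTower F F' Ω := IsScalarTower.of_algebraMap_eq fun x => by
    rw [IsScalarTower.algebraMap_apply F' E Ω, ← IsScalarTower.algebraMap_apply F F' E,
      ← IsScalarTower.algebraMap_apply F E Ω]
  have hΩ : IsAlgClosure F' Ω := by
    have h1 : IsAlgClosed Ω := IsAlgClosure.isAlgClosed F
    have h2 : Algebra.IsAlgebraic F Ω := IsAlgClosure.isAlgebraic
    have h3 : Algebra.IsAlgebraic F' Ω := Algebra.IsAlgebraic.tower_top (K := F) F'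
    exact ⟨h1, h3⟩
  have hGK : IsGalois F (FSmax S : IntermediateField F Ω) := Pool.Agent.W178.MZK.K7 F Ω S
  have hGK' : IsGalois F' (FSmax (abv F' S) :
        IntermediateField F' Ω) := Pool.Agent.W178.MZK.K7 F' Ω _
  have hle : ∀ x : Ω, x ∈ (FSmax S : IntermediateField F Ω) →
      x ∈ (FSmax (abv F' S) : IntermediateField F' Ω) := fsmax_le S (abv F' S) (fun w hw => hw)
  obtain ⟨r, r', hr⟩ := tower1 F Ω E F' (FSmax S : IntermediateField F Ω)
    (FSmax (abv F' S) :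
        IntermediateField F' Ω) hcomp hle H f7
  refine ⟨F', f1, nF', aΩ, hΩ, f2, t2, r, r', f5, ?_, hr⟩
  intro v
  have hE : Algebra.IsAlgebraic F' E := Algebra.IsAlgebraic.tower_top (K := F) F'
  rw [← InfinitePlace.mk_embedding v, InfinitePlace.isReal_mk_iff]
  exact real_of_conj F F' E H (fun g hg => (f7 g).1 hg) hconj v.embedding

/-- **The layers**: totally real fields of degree `2 ^ m` over `ℚ(√5)`. -/
theorem layer (m : ℕ) :
    ∃ (F' : Type) (_ : Field F') (_ : NumberField F') (_ : Algebra F' Om) (_ : IsAlgClosure F' Om)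
      (_ : Algebra F5 F') (_ : IsScalarTower F5 F' Om)
      (k : Type) (_ : Field k) (_ : Finite k) (_ : CharP k 2)
      (ρ' : GFS Om (abv F' S30) →* GL (Fin 3) k),
      Module.finrank ℚ F' = 2 ^ (m + 1) ∧ (∀ v : InfinitePlace F', v.IsReal) ∧
      IsOpen (ρ'.ker : Set (GFS Om (abv F' S30))) ∧ AbsIrred ρ' ∧ (∀ g, ρ' g ^ 27 = 1) ∧
      ∀ (R : CNL 2 k) (ρu : GFS Om (abv F' S30) →* GL (Fin 3) R.A), IsUniversal ρ' R ρu →
        ((4 * 2 ^ (m + 1) + 1 : ℕ) : WithBot ℕ∞) ≤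
          ringKrullDim (R.A ⧸ Ideal.span {((2 : ℕ) : R.A)}) := by
  have hGRP : S_GRP := Pool.Agent.Helper15.MD.GRP.main
  have hLFT : S_LFT := lft
  have hNT0 : S_NT0 := Pool.Agent.Helper15.MD.NT0.main
  have hK1 : StmK1 := Pool.Agent.W343.MZ.stmK1
  have hK2 : StmK2 := Pool.Agent.W343.MZ.stmK2
  have hK3 : StmK3 := Pool.Agent.W47.MZK3.k3
  have hK4 : StmK4 := Pool.Agent.W368.MZK4.t_K4 hK3
  have hK5 : StmK5 := Pool.Agent.W266.MZK5.t_K5
  have hK6 : StmK6 := Pool.Agent.W178.MZK.K6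
  have hK7 : StmK7 := Pool.Agent.W178.MZK.K7
  have hK8 : StmK8 := Pool.Agent.W561.MZK8.stmK8 W289.MZ.stmFrat hK1 hK2 hK3
  obtain ⟨hfd, hgal, h9, hreal, hunr, hNF, htwo⟩ : StmL := MZ294.stmL MZ413.stmN MZ413.stmM MZ413.stmP
  obtain ⟨k, ik, iFin, iP, ρbar, ω, hω, hρo, hρi, hρ27, hρs, hρT⟩ : StmRho := MZ294.stmRho hK7
  haveI : IsAlgClosure Lf Om := ⟨inferInstance, Algebra.IsAlgebraic.tower_top (K := F5) Lf⟩
  haveI hG1 : IsGalois F5 (Linf Lf Om) := hK1.2 F5 Lf Om hgal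
  haveI hG2 : IsGalois Lf (Linf Lf Om) := hK1.2 Lf Lf Om inferInstance
  haveI hG3 : IsGalois F5 (FSmax S30 : IntermediateField F5 Om) := hK7 F5 Om S30
  have hle : (Linf Lf Om).restrictScalars F5 ≤ FSmax S30 := hK6 F5 Om S30 two_mem_S30 Lf hunr
  let inc : (Linf Lf Om) →+* (FSmax S30 : IntermediateField F5 Om) :=
    { toFun := fun x => ⟨(x : Om), hle x.2⟩
      map_one' := rfl
      map_mul' := fun _ _ => rfl
      map_zero' := rfl
      map_add' := fun _ _ => rfl }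
  letI : Algebra (Linf Lf Om) (FSmax S30 : IntermediateField F5 Om) := inc.toAlgebra
  haveI : IsScalarTower F5 (Linf Lf Om) (FSmax S30 : IntermediateField F5 Om) :=
    IsScalarTower.of_algebraMap_eq (fun x => Subtype.ext rfl)
  haveI : IsScalarTower F5 (Linf Lf Om) Om := IsScalarTower.of_algebraMap_eq (fun x => rfl)
  -- √2
  obtain ⟨r₀, hr₀⟩ : ∃ r : Om, r ^ 2 = 2 := IsAlgClosed.exists_pow_nat_eq 2 (by norm_num)
  have hr₀mem : r₀ ∈ Linf Lf Om := by
    refine hK1.1 Lf Om 2 r₀ ?_ ⟨two_ne_zero, 1, ?_, ?_⟩ hr₀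
    · have := (Linf Lf Om).algebraMap_mem (2 : Lf)
      rwa [map_ofNat] at this
    · have : (2 ^ 1 * 2 : Om) = algebraMap ℤ Om 4 := by norm_num
      rw [this]; exact isIntegral_algebraMap
    · have : (2 ^ 1 * 2⁻¹ : Om) = 1 := by norm_num
      rw [this]; exact isIntegral_one
  have hr2 : (⟨r₀, hr₀mem⟩ : Linf Lf Om) ^ 2 = 2 := Subtype.ext hr₀
  have hrn : (⟨r₀, hr₀mem⟩ : Linf Lf Om) ∉ (algebraMap Lf (Linf Lf Om)).range := by
    rintro ⟨x, hx⟩
    refine no_sqrt2_Lf h9 x ?_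
    apply (algebraMap Lf (Linf Lf Om)).injective
    rw [map_pow, hx, hr2, map_ofNat]
  obtain ⟨D, hDj, hDres, hDc⟩ := hNT0 F5 Lf (Linf Lf Om) (FSmax S30 : IntermediateField F5 Om) h9
    hreal ⟨r₀, hr₀mem⟩ hr2 hrn (hK2 Lf Om)
    (fun φ c h1 h2 N hN hNo => by
      have e1 := hK4 Lf Om N hNo
      rw [hK5 Lf Om hreal φ c h1 h2 N hN hNo] at e1
      exact e1)
    (fun φ c σ h1 h2 h3 => hK8 Lf Om hreal htwo φ c σ h1 h2 h3)
  obtain ⟨H, hHn, hHo, hHi, hHc, hH⟩ := hGRP Gal(Linf Lf Om/Lf) Gal(Linf Lf Om/F5)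
    Gal((FSmax S30 : IntermediateField F5 Om)/F5) (F5 →+* ℂ) (Lf →+* ℂ) D m
  have hconj : ∀ φ : (Linf Lf Om) →+* ℂ, ∃ c ∈ H, ComplexEmbedding.IsConj φ c := by
    intro φ
    obtain ⟨g, i, hgi⟩ := hDc φ
    exact ⟨_, hHn.conj_mem _ (hHc i) g, hgi⟩
  obtain ⟨F', iF, iNF, iAlg, iAC, iAF, iST, r, r', hfin, hreal', hrc, hr'c, hr's,
    hcomp, hrsurj⟩ := fld2 F5 Om (Linf Lf Om) S30 (fun x => rfl) H hHo (2 ^ m) hHi (by positivity)
      hconj
  let S' : Set (HeightOneSpectrum (𝓞 F')) := abv F' S30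
  obtain ⟨P', iP1, iP2, iP3, D', hD'res, hD'j⟩ := hH (GFS Om S') r' hr'c hr's
  -- the residual representation
  let ρ' : GFS Om S' →* GL (Fin 3) k := ρbar.comp r
  have hρ'o : IsOpen (ρ'.ker : Set (GFS Om S')) := hρo.preimage hrc
  have himg : ∀ g, ∃ g', ρ' g' = ρbar g := by
    intro g
    obtain ⟨e, q, he⟩ := Pool.Agent.Helper15.MD.FIN.exists_e m
    have h1 : AlgEquiv.restrictNormalHom (F := F5) (K₁ := (FSmax S30 : IntermediateField F5 Om))
        (Linf Lf Om) (g ^ (2 ^ m)) ∈ H := by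
      rw [map_pow, ← hHi]
      exact Subgroup.pow_index_mem _ _
    obtain ⟨g', hg'⟩ := hrsurj _ h1
    refine ⟨g' ^ e, ?_⟩
    show ρbar (r (g' ^ e)) = ρbar g
    rw [map_pow, hg', ← pow_mul, map_pow, he, pow_add, pow_one, pow_mul, hρ27, one_pow, mul_one]
  have hρ'i : AbsIrred ρ' := by
    intro V hV
    refine hρi V (fun g x hx => ?_)
    obtain ⟨g', hg'⟩ := himg g
    have := hV g' x hx
    rw [hg'] at this
    exact this
  have hinv : ∀ g : GFS Om S', g * g = 1 → ρ' g = 1 := by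
    intro g hg
    have h1 : ρ' g ^ 2 = 1 := by rw [sq, ← map_mul, hg, map_one]
    have h2 : ρ' g ^ 27 = 1 := hρ27 (r g)
    calc ρ' g = ρ' g ^ 27 * (ρ' g ^ 2)⁻¹ ^ 13 := by
          rw [inv_pow, ← pow_mul, eq_mul_inv_iff_mul_eq, ← pow_succ']
      _ = 1 := by rw [h1, h2]; simp
  have hscal : Scal D' ρ' := by
    intro g hg
    rw [hD'res] at hg
    obtain ⟨q, hq⟩ := hg
    refine hρs (r g) (fun x hx => ?_)
    have h1 : ((r' g : H) : Gal(Linf Lf Om/F5)) ∈ D.j.range := by rw [← hq]; exact hD'j q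
    rw [hDj, mem_range_jR, hcomp] at h1
    have h2 := h1 ⟨(x : Om), hx⟩
    have h3 := res_apply (F := F5) (E := Linf Lf Om) (K := (FSmax S30 : IntermediateField F5 Om))
      (r g) (algebraMap Lf (Linf Lf Om) ⟨(x : Om), hx⟩)
    rw [h2] at h3
    have h4 : algebraMap (Linf Lf Om) (FSmax S30 : IntermediateField F5 Om)
        (algebraMap Lf (Linf Lf Om) ⟨(x : Om), hx⟩) = x := Subtype.ext rfl
    rw [h4] at h3
    exact h3.symm
  have hdeg : Module.finrank ℚ F' = 2 ^ (m + 1) := by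
    have h1 := Module.finrank_mul_finrank ℚ F5 F'
    rw [hfin, Pool.Agent.W505.MZ.finrank_F5] at h1
    rw [← h1, pow_succ, mul_comm]
  refine ⟨F', iF, iNF, iAlg, iAC, iAF, iST, k, ik, iFin, iP, ρ', hdeg, hreal', hρ'o, hρ'i,
    fun g => hρ27 (r g), ?_⟩
  intro R ρu hu
  have h1 := hLFT P' H (GFS Om S') ((F5 →+* ℂ) × Fin (2 ^ m)) ((Lf →+* ℂ) × Fin (2 ^ m)) D' k ρ'
    hρ'o hρ'i hscal R ρu hu
  have h2 : Fintype.card ((F5 →+* ℂ) × Fin (2 ^ m)) = 2 ^ (m + 1) := by
    rw [Fintype.card_prod, NumberField.Embeddings.card, Pool.Agent.W505.MZ.finrank_F5, Fintype.card_fin,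
      pow_succ, mul_comm]
  rw [h2] at h1
  exact h1

end Pool.Agent.Helper24.BC
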