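import Pool.Agent.Helper24.BC.Emb
import Pool.Agent.Helper24.BC.Lay

/-! # Base change to all extensions of a layer, of any signature -/

set_option autoImplicit false
set_option linter.style.haveILetI false
set_option linter.unusedSectionVars false

namespace Pool.Agent.Helper24.BC.X

open NumberField IsDedekindDomain MZ Pool.Agent.Helper24.BC

/-! ### `δ = 1 + 9 r₂` -/

theorem delta_eq {F Ω : Type} [Field F] [NumberField F] [Field Ω] [Algebra F Ω]
    (S : Set (HeightOneSpectrum (𝓞 F))) (k : Type) [Field k] (ρbar : GFS Ω S →* GL (Fin 3) k)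
    (hρ : ∀ g : GFS Ω S, g * g = 1 → ρbar g = 1)
    (w : InfinitePlace F → InfinitePlace (FSmax S : IntermediateField F Ω)) :
    delta S ρbar w = 1 + 9 * InfinitePlace.nrComplexPlaces F := by
  have key : ∀ v : InfinitePlace F,
      Module.finrank k (ad0Inv ρbar (MulAction.stabilizer (GFS Ω S) (w v))) = 8 := by
    intro v
    rw [← Pool.Agent.W505.MZ.finrank_trace k]
    have : ad0Inv ρbar (MulAction.stabilizer (GFS Ω S) (w v)) =
        LinearMap.ker (Matrix.traceLinearMap (Fin 3) k k) := by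
      ext X
      constructor
      · intro hX
        exact hX.1
      · intro hX
        refine ⟨hX, ?_⟩
        intro g hg
        have hg2 : g * g = 1 := by
          rw [← InfinitePlace.mk_embedding (w v), InfinitePlace.mem_stabilizer_mk_iff] at hg
          rcases hg with rfl | hg
          · simp
          · apply AlgEquiv.ext
            intro x
            apply (InfinitePlace.embedding (w v)).injective
            show InfinitePlace.embedding (w v) (g (g x)) = InfinitePlace.embedding (w v) x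
            rw [hg.eq, hg.eq, star_star]
        rw [hρ g hg2]
        simp
    rw [this]
  have h1 := InfinitePlace.card_eq_nrRealPlaces_add_nrComplexPlaces F
  have h2 := InfinitePlace.card_add_two_mul_card_eq_rank F
  unfold _root_.MZ.delta
  rw [Finset.sum_congr rfl (fun v _ => by rw [key v]), Finset.sum_const, Finset.card_univ,
    h1, ← h2]
  push_cast
  ring

theorem inv27 {G : Type} [Group G] {k : Type} [Field k] (ρ : G →* GL (Fin 3) k)
    (h27 : ∀ g, ρ g ^ 27 = 1) (g : G) (hg : g * g = 1) : ρ g = 1 := by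
  have h1 : ρ g ^ 2 = 1 := by rw [sq, ← map_mul, hg, map_one]
  have h2 := h27 g
  calc ρ g = ρ g ^ 27 * (ρ g ^ 2)⁻¹ ^ 13 := by
        rw [inv_pow, ← pow_mul, eq_mul_inv_iff_mul_eq, ← pow_succ']
    _ = 1 := by rw [h1, h2]; simp

/-! ### The transfer -/

section fields

variable {F Ω F' : Type} [Field F] [NumberField F] [Field Ω] [Algebra F Ω] [IsAlgClosure F Ω]
  [Field F'] [NumberField F'] [Algebra F F'] [Algebra F' Ω] [IsScalarTower F F' Ω]

theorem transfer (S : Set (HeightOneSpectrum (𝓞 F))) (S' : Set (HeightOneSpectrum (𝓞 F')))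
    (hSf : S.Finite) (hSf' : S'.Finite)
    (h2 : ∀ v : HeightOneSpectrum (𝓞 F), (2 : 𝓞 F) ∈ v.asIdeal → v ∈ S)
    (h2' : ∀ v : HeightOneSpectrum (𝓞 F'), (2 : 𝓞 F') ∈ v.asIdeal → v ∈ S')
    (hS : Above S S')
    {k : Type} [Field k] [Finite k] [CharP k 2]
    (ρbar : GFS Ω S →* GL (Fin 3) k)
    (h3 : ∀ φ : GFS Ω S' →* GFS Ω S, IsRestr S S' φ → ∀ g, ∃ h, ρbar (φ h) = ρbar g)
    (ho : IsOpen (ρbar.ker : Set (GFS Ω S)))
    (hirr : AbsIrred ρbar) (h27 : ∀ g, ρbar g ^ 27 = 1) (N : WithBot ℕ∞)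
    (hN : ∀ (R : CNL 2 k) (ρu : GFS Ω S →* GL (Fin 3) R.A), IsUniversal ρbar R ρu →
      N ≤ ringKrullDim (R.A ⧸ Ideal.span {((2 : ℕ) : R.A)})) :
    ∃ (φ : GFS Ω S' →* GFS Ω S) (w : InfinitePlace F' →
        InfinitePlace (FSmax S' : IntermediateField F' Ω)), IsRestr S S' φ ∧
      IsDatum F' Ω S' 2 k 3 (ρbar.comp φ) w ∧
      delta S' (ρbar.comp φ) w = 1 + 9 * InfinitePlace.nrComplexPlaces F' ∧
      (∃ (R : CNL 2 k) (ρu : GFS Ω S' →* GL (Fin 3) R.A), IsUniversal (ρbar.comp φ) R ρu) ∧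
      ∀ (R : CNL 2 k) (ρu : GFS Ω S' →* GL (Fin 3) R.A), IsUniversal (ρbar.comp φ) R ρu →
        N ≤ ringKrullDim (R.A ⧸ Ideal.span {((2 : ℕ) : R.A)}) := by
  haveI : IsAlgClosure F' Ω := ⟨IsAlgClosure.isAlgClosed F, by
    haveI : Algebra.IsAlgebraic F Ω := IsAlgClosure.isAlgebraic
    exact Algebra.IsAlgebraic.tower_top (K := F) F'⟩
  haveI : Fact (Nat.Prime 2) := ⟨Nat.prime_two⟩
  obtain ⟨φ, hc, hφ, hfi, hd⟩ := exists_isRestr (Ω := Ω) S S' hS
  obtain ⟨w, hw⟩ := exists_w' (FSmax S' : IntermediateField F' Ω)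
  have hirr' : AbsIrred (ρbar.comp φ) := absIrred_comp φ ρbar hirr (h3 φ hφ)
  have ho' : IsOpen ((ρbar.comp φ).ker : Set (GFS Ω S')) := ho.preimage hc
  refine ⟨φ, w, hφ, ⟨by norm_num, by norm_num, hSf', fun v hv => h2' v (by exact_mod_cast hv),
    ho', hirr', hw⟩, delta_eq S' k (ρbar.comp φ) (inv27 _ fun g => h27 (φ g)) w,
    MZEX.stmEx F' Ω S' hSf' h2' k 3 (by norm_num) (ρbar.comp φ) ho' hirr', ?_⟩
  intro R' ρu' hu'
  obtain ⟨R, ρu, hu⟩ := MZEX.stmEx F Ω S hSf h2 k 3 (by norm_num) ρbar ho hirr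
  exact (hN R ρu hu).trans
    (dim_restrict (by norm_num) φ hc hfi ρbar hirr' R ρu hu R' ρu' hu')

end fields

/-! ### The fields which have to be avoided -/

section bad

variable {F₀ : Type} [Field F₀] [NumberField F₀] [Algebra F₀ Om] [IsAlgClosure F₀ Om]
  {S₀ : Set (HeightOneSpectrum (𝓞 F₀))}
  {k : Type} [Field k] (ρ : GFS Om S₀ →* GL (Fin 3) k)

/-- the preimage of a subgroup of the image -/
noncomputable def UM (M : Subgroup ρ.range) : Subgroup (GFS Om S₀) := M.comap ρ.rangeRestrict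

/-- the cubic extension which belongs to a subgroup of index 3 of the image -/
noncomputable def NM (M : Subgroup ρ.range) :
    IntermediateField F₀ (FSmax S₀ : IntermediateField F₀ Om) :=
  IntermediateField.fixedField (UM ρ M)

/-- the same field inside `ℚ̄` -/
noncomputable def NO (M : Subgroup ρ.range) : IntermediateField ℚ Om :=
  ((NM ρ M).map (FSmax S₀ : IntermediateField F₀ Om).val).restrictScalars ℚ

omit [IsAlgClosure F₀ Om] in
theorem UM_index (M : Subgroup ρ.range) : (UM ρ M).index = M.index :=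
  Subgroup.index_comap_of_surjective M ρ.rangeRestrict_surjective

omit [IsAlgClosure F₀ Om] in
theorem UM_open (ho : IsOpen (ρ.ker : Set (GFS Om S₀))) (M : Subgroup ρ.range) :
    IsOpen (UM ρ M : Set (GFS Om S₀)) := by
  refine Subgroup.isOpen_mono ?_ ho
  intro g hg
  show ρ.rangeRestrict g ∈ M
  have : ρ.rangeRestrict g = 1 := Subtype.ext hg
  rw [this]
  exact one_mem M

theorem NM_finrank (ho : IsOpen (ρ.ker : Set (GFS Om S₀))) (M : Subgroup ρ.range) :
    Module.finrank F₀ (NM ρ M) = M.index := by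
  haveI h1 : IsGalois F₀ (FSmax S₀ : IntermediateField F₀ Om) := Pool.Agent.W178.MZK.K7 F₀ Om S₀
  let R : ClosedSubgroup (GFS Om S₀) :=
    ⟨UM ρ M, Subgroup.isClosed_of_isOpen _ (UM_open ρ ho M)⟩
  have hN : (NM ρ M).fixingSubgroup = UM ρ M := InfiniteGalois.fixingSubgroup_fixedField R
  rw [IntermediateField.finrank_eq_fixingSubgroup_index, hN, UM_index]

theorem NO_finrank (ho : IsOpen (ρ.ker : Set (GFS Om S₀))) (M : Subgroup ρ.range)
    (hM : M.index = 3) : Module.finrank ℚ (NO ρ M) = Module.finrank ℚ F₀ * 3 := by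
  have h1 : Module.finrank F₀ ((NM ρ M).map (FSmax S₀ : IntermediateField F₀ Om).val) = 3 := by
    rw [← hM, ← NM_finrank ρ ho M]
    exact (LinearEquiv.finrank_eq ((NM ρ M).equivMap
      (FSmax S₀ : IntermediateField F₀ Om).val).toLinearEquiv).symm
  have h2 : Module.finrank ℚ (NO ρ M) =
      Module.finrank ℚ ((NM ρ M).map (FSmax S₀ : IntermediateField F₀ Om).val) := rfl
  rw [h2, ← Module.finrank_mul_finrank ℚ F₀, h1]

theorem pgroup_range (h27 : ∀ g, ρ g ^ 27 = 1) : IsPGroup 3 ρ.range := by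
  rintro ⟨_, g, rfl⟩
  refine ⟨3, Subtype.ext ?_⟩
  show ρ g ^ 3 ^ 3 = 1
  exact h27 g

/-- if no field `NO M` embeds into `F`, the restriction of `ρ` has the same image -/
theorem full_image [Finite k] (h27 : ∀ g, ρ g ^ 27 = 1)
    {F : Type} [Field F] [NumberField F] [Algebra F₀ F] [Algebra F Om] [IsScalarTower F₀ F Om]
    (hT : ∀ M : Subgroup ρ.range, M.index = 3 → IsEmpty (NO ρ M →+* F))
    (S' : Set (HeightOneSpectrum (𝓞 F))) (hS : Above S₀ S')
    (φ : GFS Om S' →* GFS Om S₀) (hφ : IsRestr S₀ S' φ) (g : GFS Om S₀) :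
    ∃ h, ρ (φ h) = ρ g := by
  haveI : Finite ρ.range := inferInstance
  let T : Subgroup ρ.range := φ.range.map ρ.rangeRestrict
  by_cases hTT : T = ⊤
  · have h1 : ρ.rangeRestrict g ∈ T := hTT ▸ Subgroup.mem_top _
    obtain ⟨_, ⟨h, rfl⟩, h2⟩ := h1
    exact ⟨h, congrArg Subtype.val h2⟩
  · exfalso
    obtain ⟨M, hTM, hM⟩ := exists_index3 (pgroup_range ρ h27) T hTT
    refine (hT M hM).false ?_
    have hmem : ∀ x : NO ρ M, ∃ y : F, algebraMap F Om y = x := by
      rintro ⟨x, hx⟩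
      obtain ⟨z, hz, rfl⟩ : ∃ z ∈ NM ρ M, (z : Om) = x := by
        obtain ⟨z, hz, hzx⟩ := hx
        exact ⟨z, hz, hzx⟩
      refine fixed_mem S₀ S' hS φ hφ z fun h => ?_
      refine hz ⟨φ h, ?_⟩
      show ρ.rangeRestrict (φ h) ∈ M
      exact hTM ⟨φ h, ⟨h, rfl⟩, rfl⟩
    choose i hi using hmem
    have hinj : Function.Injective (algebraMap F Om) := (algebraMap F Om).injective
    exact
      { toFun := i
        map_one' := hinj (by rw [hi, map_one]; rfl)
        map_mul' := fun x y => hinj (by rw [hi, map_mul, hi, hi]; rfl)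
        map_zero' := hinj (by rw [hi, map_zero]; rfl)
        map_add' := fun x y => hinj (by rw [hi, map_add, hi, hi]; rfl) }

end bad

/-! ### Places above 30 -/

theorem abv_iff {F' : Type} [Field F'] [NumberField F'] [Algebra F5 F']
    (w : HeightOneSpectrum (𝓞 F')) : w ∈ abv F' S30 ↔ (30 : 𝓞 F') ∈ w.asIdeal := by
  constructor
  · rintro ⟨v, hv, hw⟩
    have h1 : (30 : 𝓞 F5) ∈ w.asIdeal.comap (algebraMap (𝓞 F5) (𝓞 F')) := by
      rw [hw]
      exact hv
    rw [Ideal.mem_comap, map_ofNat] at h1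
    exact h1
  · intro h
    refine ⟨⟨w.asIdeal.comap (algebraMap (𝓞 F5) (𝓞 F')), Ideal.comap_isPrime _ _,
      Ideal.IsIntegral.comap_ne_bot (𝓞 F5) w.ne_bot⟩, ?_, rfl⟩
    show algebraMap (𝓞 F5) (𝓞 F') (30 : 𝓞 F5) ∈ w.asIdeal
    rw [map_ofNat]
    exact h

theorem above30 {F₀ F : Type} [Field F₀] [NumberField F₀] [Field F] [NumberField F]
    [Algebra F5 F₀] [Algebra F₀ F]
    (S' : Set (HeightOneSpectrum (𝓞 F)))
    (h30 : ∀ v : HeightOneSpectrum (𝓞 F), (30 : 𝓞 F) ∈ v.asIdeal → v ∈ S') :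
    Above (abv F₀ S30) S' := by
  rintro w ⟨v, hv, hw⟩
  refine h30 w ?_
  have h1 : (30 : 𝓞 F₀) ∈ w.asIdeal.comap (algebraMap (𝓞 F₀) (𝓞 F)) := by
    rw [hw]
    exact (abv_iff v).1 hv
  rw [Ideal.mem_comap, map_ofNat] at h1
  exact h1

theorem two_of_30 {F : Type} [Field F] [NumberField F]
    (S' : Set (HeightOneSpectrum (𝓞 F)))
    (h30 : ∀ v : HeightOneSpectrum (𝓞 F), (30 : 𝓞 F) ∈ v.asIdeal → v ∈ S')
    (v : HeightOneSpectrum (𝓞 F)) (h : (2 : 𝓞 F) ∈ v.asIdeal) : v ∈ S' := by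
  refine h30 v ?_
  have : (30 : 𝓞 F) = 15 * 2 := by norm_num
  rw [this]
  exact Ideal.mul_mem_left _ _ h

/-- **All extensions of a layer.** -/
theorem overF {F₀ : Type} [Field F₀] [NumberField F₀] [Algebra F₀ Om] [IsAlgClosure F₀ Om]
    [Algebra F5 F₀]
    {k : Type} [Field k] [Finite k] [CharP k 2] (ρ : GFS Om (abv F₀ S30) →* GL (Fin 3) k)
    (ho : IsOpen (ρ.ker : Set (GFS Om (abv F₀ S30)))) (hirr : AbsIrred ρ)
    (h27 : ∀ g, ρ g ^ 27 = 1) (D : WithBot ℕ∞)
    (hN : ∀ (R : CNL 2 k) (ρu : GFS Om (abv F₀ S30) →* GL (Fin 3) R.A), IsUniversal ρ R ρu →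
      D ≤ ringKrullDim (R.A ⧸ Ideal.span {((2 : ℕ) : R.A)}))
    {F : Type} [Field F] [NumberField F] [Algebra F₀ F] [Algebra F Om] [IsScalarTower F₀ F Om]
    (hT : ∀ M : Subgroup ρ.range, M.index = 3 → IsEmpty (NO ρ M →+* F))
    (S' : Set (HeightOneSpectrum (𝓞 F))) (hSf : S'.Finite)
    (h30 : ∀ v : HeightOneSpectrum (𝓞 F), (30 : 𝓞 F) ∈ v.asIdeal → v ∈ S') :
    ∃ (ρ' : GFS Om S' →* GL (Fin 3) k) (w : InfinitePlace F →
        InfinitePlace (FSmax S' : IntermediateField F Om)),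
      IsDatum F Om S' 2 k 3 ρ' w ∧
      delta S' ρ' w = 1 + 9 * InfinitePlace.nrComplexPlaces F ∧
      (∃ (R : CNL 2 k) (ρu : GFS Om S' →* GL (Fin 3) R.A), IsUniversal ρ' R ρu) ∧
      ∀ (R : CNL 2 k) (ρu : GFS Om S' →* GL (Fin 3) R.A), IsUniversal ρ' R ρu →
        D ≤ ringKrullDim (R.A ⧸ Ideal.span {((2 : ℕ) : R.A)}) := by
  have hS : Above (abv F₀ S30) S' := above30 S' h30
  obtain ⟨φ, w, -, h1, h2, h3, h4⟩ := transfer (abv F₀ S30) S'
    (Pool.Agent.Helper15.MD.FLD.finite_above F5 F₀ S30 S30_finite) hSf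
    (two_of_30 _ fun v hv => (abv_iff v).2 hv)
    (two_of_30 S' h30) hS ρ (full_image ρ h27 hT S' hS) ho hirr h27 D hN
  exact ⟨ρ.comp φ, w, h1, h2, h3, h4⟩

/-- the embedding -/
theorem exists_alg {F₀ F : Type} [Field F₀] [NumberField F₀] [Algebra F₀ Om]
    [Field F] [NumberField F] [Algebra F₀ F] :
    ∃ (_ : Algebra F Om) (_ : IsAlgClosure F Om), IsScalarTower F₀ F Om := by
  haveI : FiniteDimensional F₀ F := Module.Finite.of_restrictScalars_finite ℚ F₀ F
  let ι : F →ₐ[F₀] Om := IsAlgClosed.lift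
  let a1 : Algebra F Om := ι.toRingHom.toAlgebra
  have h0 : IsScalarTower F₀ F Om := IsScalarTower.of_algebraMap_eq fun x => (ι.commutes x).symm
  have h2 : Algebra.IsAlgebraic F Om := Algebra.IsAlgebraic.tower_top (K := ℚ) F
  exact ⟨a1, ⟨inferInstance, h2⟩, h0⟩

end Pool.Agent.Helper24.BC.X
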