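import Pool.Agent.Helper24.BC.Unr

/-!
# Restriction of automorphisms to a smaller base field
-/

set_option autoImplicit false

namespace Pool.Agent.Helper24.BC

open NumberField IsDedekindDomain MZ MZ413 Topology

section abs

variable {F F' E K : Type} [Field F] [Field F'] [Field E] [Field K] [Algebra F F'] [Algebra F E]
  [Algebra F' K] [Algebra F K] [Algebra E K] [IsScalarTower F F' K] [IsScalarTower F E K]

/-- The restriction `Gal(K/F') → Gal(E/F)` is continuous, with an image of finite index dividing
`[F' : F]`. -/
theorem exists_restr [IsGalois F E] [IsGalois F' K] [FiniteDimensional F F'] :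
    ∃ φ : Gal(K/F') →* Gal(E/F), Continuous φ ∧
      (∀ g x, algebraMap E K (φ g x) = g (algebraMap E K x)) ∧
      φ.range.FiniteIndex ∧ φ.range.index ∣ Module.finrank F F' := by
  classical
  let φ : Gal(K/F') →* Gal(E/F) :=
    { toFun := fun g => (g.restrictScalars F).restrictNormal E
      map_one' := by
        ext x
        apply (algebraMap E K).injective
        rw [AlgEquiv.restrictNormal_commutes]
        rfl
      map_mul' := fun g h => by
        ext x
        apply (algebraMap E K).injective
        rw [AlgEquiv.restrictNormal_commutes]
        show g (h (algebraMap E K x)) = algebraMap E K (((g.restrictScalars F).restrictNormal E)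
          (((h.restrictScalars F).restrictNormal E) x))
        rw [AlgEquiv.restrictNormal_commutes]
        show _ = g (algebraMap E K (((h.restrictScalars F).restrictNormal E) x))
        rw [AlgEquiv.restrictNormal_commutes]
        rfl }
  have hc : ∀ g x, algebraMap E K (φ g x) = g (algebraMap E K x) := fun g x =>
    (g.restrictScalars F).restrictNormal_commutes E x
  have hcont : Continuous φ := by
    refine continuous_of_stab φ fun x => ?_
    have h1 : {q : Gal(K/F') | φ q x = x} =
        {q : Gal(K/F') | q (algebraMap E K x) = algebraMap E K x} := by
      ext q
      constructor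
      · intro h
        show q (algebraMap E K x) = algebraMap E K x
        rw [← hc]
        exact congrArg _ h
      · intro h
        apply (algebraMap E K).injective
        rw [hc]
        exact h
    rw [h1]
    have hint : Algebra.IsIntegral F' K := Algebra.IsAlgebraic.isIntegral
    exact isOpen_stab _
  -- the image is closed
  have hcpt : IsCompact (φ.range : Set Gal(E/F)) := by
    rw [MonoidHom.coe_range]
    exact isCompact_range hcont
  have hT2 : T2Space Gal(E/F) := krullTopology_t2
  have hcl : IsClosed (φ.range : Set Gal(E/F)) := hcpt.isClosed
  let R : ClosedSubgroup Gal(E/F) := ⟨φ.range, hcl⟩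
  let N : IntermediateField F E := IntermediateField.fixedField φ.range
  have hN : N.fixingSubgroup = φ.range := InfiniteGalois.fixingSubgroup_fixedField R
  -- elements of `N` lie in `F'`
  have hNF : ∀ x : N, ∃ y : F', algebraMap F' K y = algebraMap E K (x : E) := by
    intro x
    have h1 : algebraMap E K (x : E) ∈ Set.range (algebraMap F' K) := by
      rw [InfiniteGalois.mem_range_algebraMap_iff_fixed]
      intro g
      rw [← hc]
      congr 1
      exact x.2 ⟨φ g, ⟨g, rfl⟩⟩
    exact h1
  choose i hi using hNF
  let ι : N →ₐ[F] F' :=
    { toFun := i
      map_one' := (algebraMap F' K).injective (by rw [hi, map_one, OneMemClass.coe_one, map_one])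
      map_mul' := fun x y => (algebraMap F' K).injective (by
        rw [hi, map_mul, hi, hi, MulMemClass.coe_mul, map_mul])
      map_zero' := (algebraMap F' K).injective (by rw [hi, map_zero, ZeroMemClass.coe_zero, map_zero])
      map_add' := fun x y => (algebraMap F' K).injective (by
        rw [hi, map_add, hi, hi, AddMemClass.coe_add, map_add])
      commutes' := fun r => (algebraMap F' K).injective (by
        rw [hi, ← IsScalarTower.algebraMap_apply]
        show algebraMap E K (algebraMap F E r) = _
        rw [← IsScalarTower.algebraMap_apply]) }
  let _ : Algebra N F' := ι.toRingHom.toAlgebra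
  have hst : IsScalarTower F N F' := IsScalarTower.of_algebraMap_eq fun x => (ι.commutes x).symm
  have hfin : FiniteDimensional F N := FiniteDimensional.of_injective ι.toLinearMap ι.injective
  have hdvd : Module.finrank F N ∣ Module.finrank F F' :=
    ⟨Module.finrank N F', (Module.finrank_mul_finrank F N F').symm⟩
  have hidx : Module.finrank F N = φ.range.index := by
    rw [IntermediateField.finrank_eq_fixingSubgroup_index, hN]
  refine ⟨φ, hcont, hc, ⟨?_⟩, hidx ▸ hdvd⟩
  rw [← hidx]
  exact Module.finrank_pos.ne'

end abs

end Pool.Agent.Helper24.BC
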