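import Pool.Agent.Helper24.BC.Gen
import Pool.Agent.Helper24.BC.Res
import Pool.Agent.Helper24.BC.Cex
import Pool.Agent.Helper15.MD.DEL

/-! # Transfer of the counterexample to larger fields -/

set_option autoImplicit false
set_option linter.style.haveILetI false

namespace Pool.Agent.Helper24.BC

open NumberField IsDedekindDomain MZ

/-- in a 3-group the image of a subgroup of finite index prime to 3 is everything -/
theorem range_eq {G H Q : Type} [Group G] [Group H] [Group Q] (φ : H →* G) (ρ : G →* Q)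
    (h27 : ∀ g, ρ g ^ 27 = 1) (hfi : φ.range.FiniteIndex) (h3 : ¬ 3 ∣ φ.range.index) (g : G) :
    ∃ h, ρ (φ h) = ρ g := by
  let f : G →* ρ.range := ρ.rangeRestrict
  have hf : Function.Surjective f := ρ.rangeRestrict_surjective
  have hP : IsPGroup 3 ρ.range := by
    rintro ⟨_, g, rfl⟩
    refine ⟨3, Subtype.ext ?_⟩
    show ρ g ^ 3 ^ 3 = 1
    exact h27 g
  have hd : (φ.range.map f).index ∣ φ.range.index := Subgroup.index_map_dvd _ hf
  have hfi' : (φ.range.map f).FiniteIndex :=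
    ⟨fun h0 => hfi.index_ne_zero (Nat.eq_zero_of_zero_dvd (h0 ▸ hd))⟩
  haveI : Fact (Nat.Prime 3) := ⟨Nat.prime_three⟩
  obtain ⟨n, hn⟩ := hP.index (φ.range.map f)
  have hn0 : n = 0 := by
    by_contra h
    apply h3
    refine dvd_trans ?_ hd
    rw [hn]
    exact dvd_pow_self 3 h
  rw [hn0, pow_zero, Subgroup.index_eq_one] at hn
  have h1 : f g ∈ φ.range.map f := hn ▸ Subgroup.mem_top _
  obtain ⟨_, ⟨h, rfl⟩, h2⟩ := h1
  exact ⟨h, congrArg Subtype.val h2⟩

theorem absIrred_comp {G H k : Type} [Group G] [Group H] [Field k] {n : ℕ} (φ : H →* G)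
    (ρ : G →* GL (Fin n) k) (hirr : AbsIrred ρ) (hs : ∀ g, ∃ h, ρ (φ h) = ρ g) :
    AbsIrred (ρ.comp φ) := by
  intro V hV
  refine hirr V fun g x hx => ?_
  obtain ⟨h, hh⟩ := hs g
  rw [← hh]
  exact hV h x hx

section fields

variable {F Ω F' : Type} [Field F] [NumberField F] [Field Ω] [Algebra F Ω] [IsAlgClosure F Ω]
  [Field F'] [NumberField F'] [Algebra F F'] [Algebra F' Ω] [IsScalarTower F F' Ω]

/-- the restriction map `G_{F',S'} → G_{F,S}` -/
def IsRestr (S : Set (HeightOneSpectrum (𝓞 F))) (S' : Set (HeightOneSpectrum (𝓞 F')))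
    (φ : GFS Ω S' →* GFS Ω S) : Prop :=
  ∀ (g : GFS Ω S') (x : (FSmax S : IntermediateField F Ω))
    (y : (FSmax S' : IntermediateField F' Ω)), (x : Ω) = y → (φ g x : Ω) = g y

/-- `S'` contains the places above `S` -/
def Above (S : Set (HeightOneSpectrum (𝓞 F))) (S' : Set (HeightOneSpectrum (𝓞 F'))) : Prop :=
  ∀ w : HeightOneSpectrum (𝓞 F'),
    (∃ v ∈ S, w.asIdeal.comap (algebraMap (𝓞 F) (𝓞 F')) = v.asIdeal) → w ∈ S'

theorem exists_isRestr (S : Set (HeightOneSpectrum (𝓞 F))) (S' : Set (HeightOneSpectrum (𝓞 F')))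
    (hS : Above S S') :
    ∃ φ : GFS Ω S' →* GFS Ω S, Continuous φ ∧ IsRestr S S' φ ∧ φ.range.FiniteIndex ∧
      φ.range.index ∣ Module.finrank F F' := by
  haveI : IsAlgClosure F' Ω := ⟨IsAlgClosure.isAlgClosed F, by
    haveI : Algebra.IsAlgebraic F Ω := IsAlgClosure.isAlgebraic
    exact Algebra.IsAlgebraic.tower_top (K := F) F'⟩
  haveI h1 : IsGalois F (FSmax S : IntermediateField F Ω) := Pool.Agent.W178.MZK.K7 F Ω S
  haveI h2 : IsGalois F' (FSmax S' : IntermediateField F' Ω) := Pool.Agent.W178.MZK.K7 F' Ω S'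
  let inc : (FSmax S : IntermediateField F Ω) →+* (FSmax S' : IntermediateField F' Ω) :=
    { toFun := fun x => ⟨(x : Ω), fsmax_le S S' hS (x : Ω) x.2⟩
      map_one' := rfl
      map_mul' := fun _ _ => rfl
      map_zero' := rfl
      map_add' := fun _ _ => rfl }
  letI : Algebra (FSmax S : IntermediateField F Ω) (FSmax S' : IntermediateField F' Ω) :=
    inc.toAlgebra
  haveI : IsScalarTower F (FSmax S : IntermediateField F Ω) (FSmax S' : IntermediateField F' Ω) :=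
    IsScalarTower.of_algebraMap_eq (fun x => Subtype.ext rfl)
  haveI : FiniteDimensional F F' := Module.Finite.of_restrictScalars_finite ℚ F F'
  obtain ⟨φ, hc, hφ, hfi, hd⟩ := exists_restr (F := F) (F' := F')
    (E := (FSmax S : IntermediateField F Ω)) (K := (FSmax S' : IntermediateField F' Ω))
  refine ⟨φ, hc, fun g x y hxy => ?_, hfi, hd⟩
  have h3 := hφ g x
  have h4 : (algebraMap (FSmax S : IntermediateField F Ω) (FSmax S' : IntermediateField F' Ω)) x = y :=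
    Subtype.ext hxy
  rw [h4] at h3
  rw [← h3]
  rfl

theorem exists_w' {F Ω : Type} [Field F] [NumberField F] [Field Ω] [Algebra F Ω]
    [IsAlgClosure F Ω] (K : IntermediateField F Ω) :
    ∃ w : InfinitePlace F → InfinitePlace K, ∀ v, (w v).comap (algebraMap F K) = v := by
  have : ∀ v : InfinitePlace F, ∃ w : InfinitePlace K, w.comap (algebraMap F K) = v := by
    intro v
    let φ := v.embedding
    letI := φ.toAlgebra
    haveI : Algebra.IsAlgebraic F Ω := IsAlgClosure.isAlgebraic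
    haveI : Algebra.IsAlgebraic F K := Algebra.IsAlgebraic.tower_bot (K := F) (L := K) (A := Ω)
    let f : K →ₐ[F] ℂ := IsAlgClosed.lift
    refine ⟨InfinitePlace.mk f.toRingHom, ?_⟩
    rw [InfinitePlace.comap_mk]
    have : f.toRingHom.comp (algebraMap F K) = φ := f.comp_algebraMap
    rw [this]
    exact InfinitePlace.mk_embedding v
  choose w hw using this
  exact ⟨w, hw⟩

theorem transfer (S : Set (HeightOneSpectrum (𝓞 F))) (S' : Set (HeightOneSpectrum (𝓞 F')))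
    (hSf : S.Finite) (hSf' : S'.Finite)
    (h2 : ∀ v : HeightOneSpectrum (𝓞 F), (2 : 𝓞 F) ∈ v.asIdeal → v ∈ S)
    (h2' : ∀ v : HeightOneSpectrum (𝓞 F'), (2 : 𝓞 F') ∈ v.asIdeal → v ∈ S')
    (hS : Above S S') (hreal : ∀ v : InfinitePlace F', v.IsReal)
    {k : Type} [Field k] [Finite k] [CharP k 2]
    (ρbar : GFS Ω S →* GL (Fin 3) k)
    (h3 : ∀ φ : GFS Ω S' →* GFS Ω S, IsRestr S S' φ → ∀ g, ∃ h, ρbar (φ h) = ρbar g)
    (ho : IsOpen (ρbar.ker : Set (GFS Ω S)))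
    (hirr : AbsIrred ρbar) (h27 : ∀ g, ρbar g ^ 27 = 1) (N : WithBot ℕ∞)
    (hN : ∀ (R : CNL 2 k) (ρu : GFS Ω S →* GL (Fin 3) R.A), IsUniversal ρbar R ρu →
      N ≤ ringKrullDim (R.A ⧸ Ideal.span {((2 : ℕ) : R.A)})) :
    ∃ (φ : GFS Ω S' →* GFS Ω S) (w : InfinitePlace F' →
        InfinitePlace (FSmax S' : IntermediateField F' Ω)), IsRestr S S' φ ∧
      IsDatum F' Ω S' 2 k 3 (ρbar.comp φ) w ∧ delta S' (ρbar.comp φ) w = 1 ∧
      (∃ (R : CNL 2 k) (ρu : GFS Ω S' →* GL (Fin 3) R.A), IsUniversal (ρbar.comp φ) R ρu) ∧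
      ∀ (R : CNL 2 k) (ρu : GFS Ω S' →* GL (Fin 3) R.A), IsUniversal (ρbar.comp φ) R ρu →
        N ≤ ringKrullDim (R.A ⧸ Ideal.span {((2 : ℕ) : R.A)}) := by
  haveI : IsAlgClosure F' Ω := ⟨IsAlgClosure.isAlgClosed F, by
    haveI : Algebra.IsAlgebraic F Ω := IsAlgClosure.isAlgebraic
    exact Algebra.IsAlgebraic.tower_top (K := F) F'⟩
  haveI : Fact (Nat.Prime 2) := ⟨Nat.prime_two⟩
  obtain ⟨φ, hc, hφ, hfi, hd⟩ := exists_isRestr (Ω := Ω) S S' hS
  obtain ⟨w, hw⟩ := exists_w' (FSmax S' : IntermediateField F' Ω)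
  have hirr' : AbsIrred (ρbar.comp φ) := absIrred_comp φ ρbar hirr (h3 φ hφ)
  have ho' : IsOpen ((ρbar.comp φ).ker : Set (GFS Ω S')) := ho.preimage hc
  have hinv : ∀ g : GFS Ω S', g * g = 1 → (ρbar.comp φ) g = 1 := by
    intro g hg
    have h1 : (ρbar.comp φ) g ^ 2 = 1 := by rw [sq, ← map_mul, hg, map_one]
    have h2 : (ρbar.comp φ) g ^ 27 = 1 := h27 (φ g)
    calc (ρbar.comp φ) g = (ρbar.comp φ) g ^ 27 * ((ρbar.comp φ) g ^ 2)⁻¹ ^ 13 := by
          rw [inv_pow, ← pow_mul, eq_mul_inv_iff_mul_eq, ← pow_succ']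
      _ = 1 := by rw [h1, h2]; simp
  refine ⟨φ, w, hφ, ⟨by norm_num, by norm_num, hSf', fun v hv => h2' v (by exact_mod_cast hv),
    ho', hirr', hw⟩, Pool.Agent.Helper15.MD.DEL.main F' Ω S' k (ρbar.comp φ) hreal hinv w hw,
    MZEX.stmEx F' Ω S' hSf' h2' k 3 (by norm_num) (ρbar.comp φ) ho' hirr', ?_⟩
  intro R' ρu' hu'
  obtain ⟨R, ρu, hu⟩ := MZEX.stmEx F Ω S hSf h2 k 3 (by norm_num) ρbar ho hirr
  exact (hN R ρu hu).trans
    (dim_restrict (by norm_num) φ hc hfi ρbar hirr' R ρu hu R' ρu' hu')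

end fields

end Pool.Agent.Helper24.BC
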