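import Pool.Graph.R_seed8.Y808.MZ.Gal
import Pool.Agent.Helper15.MD.BUR

/-!
# Restriction of deformations does not lower the dimension of the universal ring

`φ : H → G` is a continuous homomorphism whose image has finite index, `ρbar` a representation of `G`
over the finite field `k` which is absolutely irreducible on `H`, and `R`, `R'` are the universal
deformation rings of `ρbar` and `ρbar ∘ φ`. Then `dim R / p ≤ dim R' / p`.
-/

set_option autoImplicit false

namespace Pool.Agent.Helper24.BC

open IsLocalRing MZ MZEX Matrix Topology Pool.Agent.Y808.MZD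

/-- `g : A → B` is a local homomorphism; if the maximal ideal of `B` is the only prime ideal of `B`
which contains the image of the maximal ideal of `A`, then `dim B ≤ dim A`. -/
theorem dim_le {A B : Type} [CommRing A] [CommRing B] [IsLocalRing A] [IsLocalRing B]
    [IsNoetherianRing A] [IsNoetherianRing B] (g : A →+* B)
    (hloc : ∀ x ∈ maximalIdeal A, g x ∈ maximalIdeal B)
    (h : ∀ P : Ideal B, P.IsPrime → (∀ x ∈ maximalIdeal A, g x ∈ P) → P = maximalIdeal B) :
    ringKrullDim B ≤ ringKrullDim A := by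
  classical
  obtain ⟨s, hs, hcard⟩ := Ideal.exists_finset_card_eq_height_of_isNoetherianRing (maximalIdeal A)
  rw [← maximalIdeal_height_eq_ringKrullDim (R := A), ← maximalIdeal_height_eq_ringKrullDim (R := B),
    ← hcard]
  have h1 : (maximalIdeal B) ∈ (Ideal.span ((s.image g : Finset B) : Set B)).minimalPrimes := by
    refine ⟨⟨inferInstance, ?_⟩, ?_⟩
    · rw [Ideal.span_le]
      intro y hy
      rw [Finset.coe_image] at hy
      obtain ⟨x, hx, rfl⟩ := hy
      exact hloc x (hs.1.2 (Ideal.subset_span hx))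
    · rintro P ⟨hP, hle⟩ _
      have h2 : P.comap g ≤ maximalIdeal A := IsLocalRing.le_maximalIdeal (hP.comap g).ne_top
      have h3 : Ideal.span (s : Set A) ≤ P.comap g := by
        rw [Ideal.span_le]
        intro x hx
        apply hle
        apply Ideal.subset_span
        rw [Finset.coe_image]
        exact ⟨x, hx, rfl⟩
      have h4 : maximalIdeal A ≤ P.comap g := hs.2 ⟨hP.comap g, h3⟩ h2
      rw [h P hP fun x hx => h4 hx]
  have h5 := Ideal.height_le_card_of_mem_minimalPrimes_span_finset h1
  have h6 : (s.image g).card ≤ s.card := Finset.card_image_le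
  have h7 : (maximalIdeal B).height ≤ (s.card : ℕ∞) := h5.trans (by exact_mod_cast h6)
  exact_mod_cast h7


/-- A representation with finite image over a local domain `D` with finite residue field `k`, whose
image spans all constant matrices, is constant. -/
theorem const_of_finite {D k : Type} [CommRing D] [IsDomain D] [Field k] [Finite k]
    (C0 : k →+* D) (res : D →+* k) (hres : ∀ x, res (C0 x) = x)
    {n : ℕ} {G : Type} [Group G] (r : G →* Matrix (Fin n) (Fin n) D) (hfin : (Set.range r).Finite)
    (hconst : ∀ N : Matrix (Fin n) (Fin n) k,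
      letI := C0.toAlgebra; N.map C0 ∈ Submodule.span k (Set.range r)) (g : G) (i j : Fin n) :
    r g i j = C0 (res (r g i j)) := by
  classical
  let _ : Algebra k D := C0.toAlgebra
  -- the span is a finite subalgebra
  let A : Subalgebra k (Matrix (Fin n) (Fin n) D) := Algebra.adjoin k (Set.range r)
  have hA : (Subalgebra.toSubmodule A) = Submodule.span k (Set.range r) := by
    have h1 : Subalgebra.toSubmodule A = Submodule.span k (Submonoid.closure (Set.range r)) :=
      Algebra.adjoin_eq_span _ _
    have h2 : Submonoid.closure (Set.range r) = MonoidHom.mrange r := by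
      have : Set.range r = (MonoidHom.mrange r : Set _) := by
        ext; simp
      rw [this, Submonoid.closure_eq]
    rw [h1, h2]
    congr 1
  have hAfin : Finite A := by
    have h1 : Finite (Submodule.span k (Set.range r)) := by
      have : Module.Finite k (Submodule.span k (Set.range r)) :=
        Module.Finite.span_of_finite k hfin
      exact Module.finite_of_finite k
    rw [← hA] at h1
    exact h1
  have hc : ∀ N : Matrix (Fin n) (Fin n) k, N.map C0 ∈ A := by
    intro N
    have h1 := hconst N
    rw [← hA] at h1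
    exact h1
  have hg : r g ∈ A := Algebra.subset_adjoin ⟨g, rfl⟩
  -- scalar matrices in `A`
  have hent : ∀ b ∈ A, ∀ i j : Fin n, Matrix.scalar (Fin n) (b i j) ∈ A := by
    intro b hb i j
    have h1 : Matrix.scalar (Fin n) (b i j) =
        ∑ l, (Matrix.single l i (1 : k)).map C0 * b * (Matrix.single j l (1 : k)).map C0 := by
      have h2 : ∀ l : Fin n, (Matrix.single l i (1 : k)).map C0 * b * (Matrix.single j l (1 : k)).map C0 =
          Matrix.single l l (b i j) := by
        intro l
        have e1 : (Matrix.single l i (1 : k)).map C0 = Matrix.single l i (1 : D) := by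
          ext x y
          simp only [Matrix.map_apply, Matrix.single_apply]
          split_ifs <;> simp
        have e2 : (Matrix.single j l (1 : k)).map C0 = Matrix.single j l (1 : D) := by
          ext x y
          simp only [Matrix.map_apply, Matrix.single_apply]
          split_ifs <;> simp
        rw [e1, e2, Matrix.single_mul_mul_single, one_mul, mul_one]
      rw [Finset.sum_congr rfl fun l _ => h2 l]
      ext x y
      rw [Matrix.sum_apply]
      by_cases hxy : x = y
      · subst hxy
        rw [Finset.sum_eq_single x]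
        · simp
        · intro l _ hl
          simp [Matrix.single_apply, hl]
        · intro h; exact absurd (Finset.mem_univ _) h
      · rw [Finset.sum_eq_zero]
        · simp [hxy]
        · intro l _
          rw [Matrix.single_apply]
          split_ifs with h
          · exact absurd (h.1.symm.trans h.2) hxy
          · rfl
    rw [h1]
    exact A.sum_mem fun l _ => A.mul_mem (A.mul_mem (hc _) hb) (hc _)
  -- elements with scalar matrix in `A` are zero or units
  have hunit : ∀ z : D, Matrix.scalar (Fin n) z ∈ A → z ≠ 0 → IsUnit z := by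
    intro z hz hz0
    have h1 : ¬ Function.Injective fun m : ℕ => (⟨Matrix.scalar (Fin n) z ^ m, A.pow_mem hz m⟩ : A) :=
      not_injective_infinite_finite _
    rw [Function.Injective] at h1
    push Not at h1
    obtain ⟨a, b, hab, hne⟩ := h1
    have h2 : z ^ a = z ^ b := by
      have h3 := congrArg (fun t : A => (t : Matrix (Fin n) (Fin n) D) i i) hab
      simp only [← map_pow] at h3
      simpa using h3
    have key : ∀ a b : ℕ, a < b → z ^ a = z ^ b → IsUnit z := by
      intro a b hlt h
      have h4 : z ^ a * z ^ (b - a) = z ^ a * 1 := by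
        rw [← pow_add, mul_one, h]
        congr 1
        omega
      have h5 : z ^ (b - a) = 1 := mul_left_cancel₀ (pow_ne_zero _ hz0) h4
      exact IsUnit.of_pow_eq_one h5 (by omega)
    rcases lt_or_gt_of_ne hne with h | h
    · exact key a b h h2
    · exact key b a h h2.symm
  by_contra hne
  have h1 : Matrix.scalar (Fin n) (r g i j - C0 (res (r g i j))) ∈ A := by
    rw [map_sub]
    refine A.sub_mem (hent _ hg i j) ?_
    have h2 := hc (Matrix.scalar (Fin n) (res (r g i j)))
    convert h2 using 1
    ext x y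
    by_cases hxy : x = y
    · subst hxy; simp
    · simp [hxy]
  have h2 := hunit _ h1 (sub_ne_zero.2 hne)
  have h3 : res (r g i j - C0 (res (r g i j))) = 0 := by
    rw [map_sub, hres, sub_self]
  have h4 := h2.map res
  rw [h3] at h4
  exact not_isUnit_zero h4

section main

variable {p : ℕ} [Fact p.Prime] {k : Type} [Field k] [Finite k] [CharP k p]
variable {G H : Type} [Group G] [TopologicalSpace G] [IsTopologicalGroup G]
  [Group H] [TopologicalSpace H] [IsTopologicalGroup H] {n : ℕ}

/-- a lift pushed forward along a homomorphism of coefficient rings -/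
theorem lift_map {ρbar : G →* GL (Fin n) k} {A B : CNL p k} (q : A.A →ₐ[WittVector p k] B.A)
    (hqr : ∀ x, B.res (q x) = A.res x)
    (hqj : ∀ (j : ℕ) (x : A.A), x ∈ maximalIdeal A.A ^ j → q x ∈ maximalIdeal B.A ^ j)
    {ρ : G →* GL (Fin n) A.A} (hρ : IsLift ρbar A ρ) :
    IsLift ρbar B ((Matrix.GeneralLinearGroup.map (q : A.A →+* B.A)).comp ρ) := by
  set ρQ : G →* GL (Fin n) B.A := (Matrix.GeneralLinearGroup.map (q : A.A →+* B.A)).comp ρ with hρQ
  constructor
  · intro g
    rw [← hρ.1 g]
    ext a b
    simp only [map_val]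
    exact hqr _
  · intro j
    have h2 : Nsub ρ (maximalIdeal A.A ^ j) ≤ Nsub ρQ (maximalIdeal B.A ^ j) := by
      intro g hg a b
      have h3 := hqj j _ (hg a b)
      rw [Matrix.sub_apply, map_sub] at h3
      rw [Matrix.sub_apply]
      have h4 : (ρQ g : Matrix (Fin n) (Fin n) B.A) a b =
        q ((ρ g : Matrix (Fin n) (Fin n) A.A) a b) := rfl
      have h5 : q ((1 : Matrix (Fin n) (Fin n) A.A) a b) = (1 : Matrix (Fin n) (Fin n) B.A) a b := by
        by_cases hab : a = b
        · subst hab; simp
        · simp [Matrix.one_apply_ne hab]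
      rw [h4, ← h5]
      exact h3
    exact Subgroup.isOpen_mono h2 (hρ.2 j)

omit [IsTopologicalGroup H] [IsTopologicalGroup G] in
/-- the only prime ideal of `R` containing the image of the maximal ideal of `R'` is the maximal
ideal -/
theorem prime_eq (hn : 1 ≤ n) [IsTopologicalGroup G] (φ : H →* G) (hφ : Continuous φ)
    (hfi : φ.range.FiniteIndex)
    (ρbar : G →* GL (Fin n) k) (hirr : AbsIrred (ρbar.comp φ))
    (R : CNL p k) (ρu : G →* GL (Fin n) R.A) (hu : IsUniversal ρbar R ρu)
    (R' : CNL p k) (ρu' : H →* GL (Fin n) R'.A)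
    (f : R'.A →ₐ[WittVector p k] R.A) (hf1 : ∀ x, R.res (f x) = R'.res x)
    (hlift' : IsLift (ρbar.comp φ) R' ρu')
    (hf2 : StrictEquiv R ((Matrix.GeneralLinearGroup.map (f : R'.A →+* R.A)).comp ρu') (ρu.comp φ))
    (P : Ideal R.A) (hP : P.IsPrime) (hPf : ∀ x ∈ maximalIdeal R'.A, f x ∈ P) :
    P = maximalIdeal R.A := by
  classical
  have hPm : P ≤ maximalIdeal R.A := IsLocalRing.le_maximalIdeal hP.ne_top
  obtain ⟨D, π, hπs, hπ0, hπr, hπj, -⟩ := exists_quot R P hPm
  -- `D` is a domain
  have hker : RingHom.ker (π : R.A →+* D.A) = P := by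
    ext x
    exact hπ0 x
  have hdom : IsDomain D.A := by
    have e : (R.A ⧸ P) ≃+* D.A :=
      (Ideal.quotEquivOfEq hker.symm).trans (RingHom.quotientKerEquivOfSurjective hπs)
    have : IsDomain (R.A ⧸ P) := Ideal.Quotient.isDomain P
    exact e.symm.injective.isDomain (e.symm : D.A →+* (R.A ⧸ P))
  -- the constants
  have hmem' : ∀ x : R'.A, x ∈ maximalIdeal R'.A ↔ R'.res x = 0 := fun x => mem_max_iff R' x
  have hkill : ∀ x : R'.A, R'.res x = 0 → π (f x) = 0 := fun x hx =>
    (hπ0 _).2 (hPf x ((hmem' x).2 hx))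
  obtain ⟨C0, hC0⟩ : ∃ C0 : k →+* D.A, ∀ x : R'.A, C0 (R'.res x) = π (f x) := by
    refine ⟨RingHom.liftOfSurjective R'.res R'.res_surj
      ⟨(π : R.A →+* D.A).comp (f : R'.A →+* R.A), fun x hx => hkill x hx⟩, fun x => ?_⟩
    exact RingHom.liftOfRightInverse_comp_apply _ _ _ _ x
  have hresC : ∀ x, D.res (C0 x) = x := by
    intro x
    obtain ⟨y, rfl⟩ := R'.res_surj x
    rw [hC0, hπr, hf1]
  -- the representation over `D`
  set ρD : G →* GL (Fin n) D.A := (Matrix.GeneralLinearGroup.map (π : R.A →+* D.A)).comp ρu with hρD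
  have hliftD : IsLift ρbar D ρD := lift_map π hπr hπj hu.1
  obtain ⟨M, hM, hMf⟩ := hf2
  set MD : GL (Fin n) D.A := Matrix.GeneralLinearGroup.map (π : R.A →+* D.A) M with hMD
  set CM : GL (Fin n) k →* GL (Fin n) D.A := Matrix.GeneralLinearGroup.map C0 with hCM
  have hMDres : Matrix.GeneralLinearGroup.map D.res MD = 1 := by
    rw [← hM]
    ext a b
    simp only [hMD, map_val]
    exact hπr _
  have hH : ∀ h : H, ρD (φ h) = MD * CM (ρbar (φ h)) * MD⁻¹ := by
    intro h
    have h1 := hMf h
    have h2 : ρD (φ h) = Matrix.GeneralLinearGroup.map (π : R.A →+* D.A) (ρu (φ h)) := rfl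
    rw [h2]
    rw [MonoidHom.comp_apply] at h1
    rw [h1, map_mul, map_mul, map_inv, ← hMD]
    congr 2
    have h3 := hlift'.1 h
    rw [MonoidHom.comp_apply] at h3
    rw [← h3]
    ext a b
    simp only [hCM, map_val]
    exact (hC0 _).symm
  let ρ' : G →* GL (Fin n) D.A := (MulAut.conj MD⁻¹).toMonoidHom.comp ρD
  have hρ' : ∀ g, ρ' g = MD⁻¹ * ρD g * MD := by
    intro g
    show MD⁻¹ * ρD g * (MD⁻¹)⁻¹ = _
    rw [inv_inv]
  have hH' : ∀ h : H, ρ' (φ h) = CM (ρbar (φ h)) := by
    intro h
    rw [hρ', hH]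
    group
  let r : G →* Matrix (Fin n) (Fin n) D.A := (Units.coeHom _).comp ρ'
  have hr : ∀ g, r g = (ρ' g : Matrix (Fin n) (Fin n) D.A) := fun g => rfl
  have hfinGL : Finite (GL (Fin n) k) := inferInstance
  have hfin : (Set.range r).Finite := by
    have hfq : Finite (G ⧸ φ.range) := Subgroup.finite_quotient_of_finiteIndex
    let Fn : (G ⧸ φ.range) × GL (Fin n) k → Matrix (Fin n) (Fin n) D.A := fun x =>
      ((ρ' x.1.out * CM x.2 : GL (Fin n) D.A) : Matrix (Fin n) (Fin n) D.A)
    refine (Set.finite_range Fn).subset ?_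
    rintro _ ⟨g, rfl⟩
    have h1 : (QuotientGroup.mk (QuotientGroup.mk g : G ⧸ φ.range).out : G ⧸ φ.range) =
        QuotientGroup.mk g := Quotient.out_eq' _
    rw [QuotientGroup.eq] at h1
    obtain ⟨h, hh⟩ := h1
    refine ⟨(QuotientGroup.mk g, ρbar (φ h)), ?_⟩
    show ((ρ' (QuotientGroup.mk g : G ⧸ φ.range).out * CM (ρbar (φ h)) : GL (Fin n) D.A) :
      Matrix (Fin n) (Fin n) D.A) = _
    rw [← hH' h, ← map_mul, hr, hh, mul_inv_cancel_left]
  have hspan := Pool.Agent.Helper15.MD.BUR.main k H n (ρbar.comp φ) hn hirr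
  have hconst : ∀ N : Matrix (Fin n) (Fin n) k,
      letI := C0.toAlgebra; N.map C0 ∈ Submodule.span k (Set.range r) := by
    let _ : Algebra k D.A := C0.toAlgebra
    intro N
    have hN : N ∈ Submodule.span k (Set.range fun h : H =>
      ((ρbar.comp φ) h : Matrix (Fin n) (Fin n) k)) := by
      rw [hspan]; trivial
    show N.map C0 ∈ Submodule.span k (Set.range r)
    induction hN using Submodule.span_induction with
    | mem x hx =>
      obtain ⟨h, rfl⟩ := hx
      apply Submodule.subset_span
      refine ⟨φ h, ?_⟩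
      rw [hr, hH']
      rfl
    | zero =>
      have : (0 : Matrix (Fin n) (Fin n) k).map C0 = 0 := by
        ext a b
        simp
      rw [this]
      exact Submodule.zero_mem _
    | add x y _ _ hx hy =>
      have : (x + y).map C0 = x.map C0 + y.map C0 := by
        ext a b
        simp
      rw [this]
      exact Submodule.add_mem _ hx hy
    | smul c x _ hx =>
      have : (c • x).map C0 = c • x.map C0 := by
        ext a b
        simp only [Matrix.map_apply, Matrix.smul_apply, smul_eq_mul, map_mul]
        rfl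
      rw [this]
      exact Submodule.smul_mem _ _ hx
  have hcst := const_of_finite C0 D.res hresC r hfin hconst
  have hall : ∀ g, ρ' g = CM (ρbar g) := by
    intro g
    ext a b
    have h1 := hcst g a b
    have h2 : D.res (r g a b) = (ρbar g : Matrix (Fin n) (Fin n) k) a b := by
      have h3 : Matrix.GeneralLinearGroup.map D.res (ρ' g) = ρbar g := by
        rw [hρ', map_mul, map_mul, map_inv, hMDres, inv_one, one_mul, mul_one]
        exact hliftD.1 g
      rw [← h3]
      rfl
    rw [h2] at h1
    exact h1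
  have hDall : ∀ g, ρD g = MD * CM (ρbar g) * MD⁻¹ := by
    intro g
    rw [← hall g, hρ']
    group
  -- the second map
  let τ : R.A →ₐ[WittVector p k] D.A :=
    { toRingHom := C0.comp R.res
      commutes' := by
        intro x
        show C0 (R.res (algebraMap (WittVector p k) R.A x)) = algebraMap (WittVector p k) D.A x
        rw [R.res_coeff, ← R'.res_coeff, hC0, AlgHom.commutes, AlgHom.commutes] }
  have hτ : ∀ x, τ x = C0 (R.res x) := fun x => rfl
  obtain ⟨χ, -, hχ⟩ := hu.2 D ρD hliftD
  have e1 : π = χ := hχ π ⟨hπr, ⟨1, by rw [map_one], fun g => by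
    rw [one_mul, inv_one, mul_one]⟩⟩
  have e2 : τ = χ := hχ τ ⟨fun x => by rw [hτ, hresC], ⟨MD, hMDres, fun g => by
    rw [hDall g]
    congr 2
    have h3 := hu.1.1 g
    rw [MonoidHom.comp_apply, ← h3]
    ext a b
    rfl⟩⟩
  refine le_antisymm hPm fun x hx => ?_
  rw [← hπ0, e1, ← e2, hτ, (mem_max_iff R x).1 hx, map_zero]

/-- **Restriction does not lower the dimension.** -/
theorem dim_restrict (hn : 1 ≤ n) (φ : H →* G) (hφ : Continuous φ)
    (hfi : φ.range.FiniteIndex)
    (ρbar : G →* GL (Fin n) k) (hirr : AbsIrred (ρbar.comp φ))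
    (R : CNL p k) (ρu : G →* GL (Fin n) R.A) (hu : IsUniversal ρbar R ρu)
    (R' : CNL p k) (ρu' : H →* GL (Fin n) R'.A) (hu' : IsUniversal (ρbar.comp φ) R' ρu') :
    ringKrullDim (R.A ⧸ Ideal.span {(p : R.A)}) ≤ ringKrullDim (R'.A ⧸ Ideal.span {(p : R'.A)}) := by
  have hinf : IsLift (ρbar.comp φ) R (ρu.comp φ) :=
    ⟨fun g => hu.1.1 (φ g), fun j => (hu.1.2 j).preimage hφ⟩
  obtain ⟨f, ⟨hf1, hf2⟩, -⟩ := hu'.2 R (ρu.comp φ) hinf
  have hloc : ∀ x ∈ maximalIdeal R'.A, f x ∈ maximalIdeal R.A := by
    intro x hx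
    rw [mem_max_iff, hf1, ← mem_max_iff]
    exact hx
  have hp : ∀ A : CNL p k, Ideal.span {(p : A.A)} ≤ maximalIdeal A.A := by
    intro A
    rw [Ideal.span_le, Set.singleton_subset_iff, SetLike.mem_coe, mem_max_iff, map_natCast]
    exact CharP.cast_eq_zero k p
  have hnt : ∀ A : CNL p k, Nontrivial (A.A ⧸ Ideal.span {(p : A.A)}) := by
    intro A
    apply Ideal.Quotient.nontrivial_iff.2
    intro h
    exact (IsLocalRing.maximalIdeal.isMaximal A.A).ne_top (top_le_iff.1 (h ▸ hp A))
  have h1 : Ideal.span {(p : R'.A)} ≤ (Ideal.span {(p : R.A)}).comap (f : R'.A →+* R.A) := by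
    rw [Ideal.span_le, Set.singleton_subset_iff]
    show (f : R'.A →+* R.A) (p : R'.A) ∈ Ideal.span {(p : R.A)}
    rw [map_natCast]
    exact Ideal.subset_span rfl
  have hn1 := hnt R
  have hn2 := hnt R'
  have hl1 : IsLocalRing (R.A ⧸ Ideal.span {(p : R.A)}) :=
    IsLocalRing.of_surjective' (Ideal.Quotient.mk _) Ideal.Quotient.mk_surjective
  have hl2 : IsLocalRing (R'.A ⧸ Ideal.span {(p : R'.A)}) :=
    IsLocalRing.of_surjective' (Ideal.Quotient.mk _) Ideal.Quotient.mk_surjective
  have hmax : ∀ (A : CNL p k) [IsLocalRing (A.A ⧸ Ideal.span {(p : A.A)})] (x : A.A),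
      Ideal.Quotient.mk (Ideal.span {(p : A.A)}) x ∈ maximalIdeal (A.A ⧸ Ideal.span {(p : A.A)}) ↔
        x ∈ maximalIdeal A.A := by
    intro A _ x
    have h2 : (maximalIdeal (A.A ⧸ Ideal.span {(p : A.A)})).comap (Ideal.Quotient.mk _) =
        maximalIdeal A.A := by
      have h3 : ((maximalIdeal (A.A ⧸ Ideal.span {(p : A.A)})).comap
        (Ideal.Quotient.mk (Ideal.span {(p : A.A)}))).IsMaximal :=
        Ideal.comap_isMaximal_of_surjective _ Ideal.Quotient.mk_surjective
      exact IsLocalRing.eq_maximalIdeal h3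
    rw [← h2, Ideal.mem_comap]
  refine dim_le (Ideal.quotientMap _ (f : R'.A →+* R.A) h1) ?_ ?_
  · intro x hx
    obtain ⟨x, rfl⟩ := Ideal.Quotient.mk_surjective x
    rw [hmax] at hx
    have h2 := hloc x hx
    show Ideal.Quotient.mk _ (f x) ∈ _
    rw [hmax]
    exact h2
  · intro P hP hPf
    have hP' : (P.comap (Ideal.Quotient.mk (Ideal.span {(p : R.A)}))).IsPrime := hP.comap _
    have h2 := prime_eq hn φ hφ hfi ρbar hirr R ρu hu R' ρu' f hf1 hu'.1 hf2 _ hP' (by
      intro x hx
      rw [Ideal.mem_comap]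
      exact hPf (Ideal.Quotient.mk _ x) ((hmax R' x).2 hx))
    apply le_antisymm (IsLocalRing.le_maximalIdeal hP.ne_top)
    intro x hx
    obtain ⟨x, rfl⟩ := Ideal.Quotient.mk_surjective x
    rw [hmax] at hx
    rw [← h2, Ideal.mem_comap] at hx
    exact hx

end main

end Pool.Agent.Helper24.BC
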