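import Pool.Agent.Helper24.BC.Emb

/-! # All totally real fields containing a square root of 5 -/

set_option autoImplicit false
set_option linter.style.haveILetI false

namespace Pool.Agent.Helper24.BC

open NumberField IsDedekindDomain MZ

theorem pgroup_range {k : Type} [Field k] (ρ : GFS Om S30 →* GL (Fin 3) k)
    (h27 : ∀ g, ρ g ^ 27 = 1) : IsPGroup 3 ρ.range := by
  rintro ⟨_, g, rfl⟩
  refine ⟨3, Subtype.ext ?_⟩
  show ρ g ^ 3 ^ 3 = 1
  exact h27 g

theorem above30 {F : Type} [Field F] [NumberField F] [Algebra F5 F]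
    (S' : Set (HeightOneSpectrum (𝓞 F)))
    (h30 : ∀ v : HeightOneSpectrum (𝓞 F), (30 : 𝓞 F) ∈ v.asIdeal → v ∈ S') :
    Above S30 S' := by
  rintro w ⟨v, hv, hw⟩
  refine h30 w ?_
  have h1 : (30 : 𝓞 F5) ∈ w.asIdeal.comap (algebraMap (𝓞 F5) (𝓞 F)) := by
    rw [hw]
    exact hv
  rw [Ideal.mem_comap, map_ofNat] at h1
  exact h1

theorem two_of_30 {F : Type} [Field F] [NumberField F]
    (S' : Set (HeightOneSpectrum (𝓞 F)))
    (h30 : ∀ v : HeightOneSpectrum (𝓞 F), (30 : 𝓞 F) ∈ v.asIdeal → v ∈ S')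
    (v : HeightOneSpectrum (𝓞 F)) (h : (2 : 𝓞 F) ∈ v.asIdeal) : v ∈ S' := by
  refine h30 v ?_
  have : (30 : 𝓞 F) = 15 * 2 := by norm_num
  rw [this]
  exact Ideal.mul_mem_left _ _ h

/-- if no cubic field `NO M` embeds into `F`, the restriction of `ρ` has the same image -/
theorem full_image {k : Type} [Field k] [Finite k] (ρ : GFS Om S30 →* GL (Fin 3) k)
    (h27 : ∀ g, ρ g ^ 27 = 1)
    {F : Type} [Field F] [NumberField F] [Algebra F5 F] [Algebra F Om] [IsScalarTower F5 F Om]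
    (hT : ∀ M : Subgroup ρ.range, M.index = 3 → IsEmpty (NO ρ M →+* F))
    (S' : Set (HeightOneSpectrum (𝓞 F))) (hS : Above S30 S')
    (φ : GFS Om S' →* GFS Om S30) (hφ : IsRestr S30 S' φ) (g : GFS Om S30) :
    ∃ h, ρ (φ h) = ρ g := by
  haveI : Finite ρ.range := inferInstance
  let T : Subgroup ρ.range := φ.range.map ρ.rangeRestrict
  by_cases hTT : T = ⊤
  · have h1 : ρ.rangeRestrict g ∈ T := hTT ▸ Subgroup.mem_top _
    obtain ⟨_, ⟨h, rfl⟩, h2⟩ := h1
    exact ⟨h, congrArg Subtype.val h2⟩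
  · exfalso
    obtain ⟨M, hTM, hM⟩ := exists_index3 (pgroup_range ρ h27) T hTT
    refine (hT M hM).false ?_
    have hmem : ∀ x : NO ρ M, ∃ y : F, algebraMap F Om y = x := by
      rintro ⟨x, hx⟩
      obtain ⟨z, hz, rfl⟩ : ∃ z ∈ NM ρ M, (z : Om) = x := by
        obtain ⟨z, hz, hzx⟩ := hx
        exact ⟨z, hz, hzx⟩
      refine fixed_mem S30 S' hS φ hφ z fun h => ?_
      refine hz ⟨φ h, ?_⟩
      show ρ.rangeRestrict (φ h) ∈ M
      exact hTM ⟨φ h, ⟨h, rfl⟩, rfl⟩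
    choose i hi using hmem
    have hinj : Function.Injective (algebraMap F Om) := (algebraMap F Om).injective
    exact
      { toFun := i
        map_one' := hinj (by rw [hi, map_one]; rfl)
        map_mul' := fun x y => hinj (by rw [hi, map_mul, hi, hi]; rfl)
        map_zero' := hinj (by rw [hi, map_zero]; rfl)
        map_add' := fun x y => hinj (by rw [hi, map_add, hi, hi]; rfl) }

/-- over a field with an embedding -/
theorem overF {k : Type} [Field k] [Finite k] [CharP k 2] (ρ : GFS Om S30 →* GL (Fin 3) k)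
    (ho : IsOpen (ρ.ker : Set (GFS Om S30))) (hirr : AbsIrred ρ)
    (h27 : ∀ g, ρ g ^ 27 = 1) (D : WithBot ℕ∞)
    (hN : ∀ (R : CNL 2 k) (ρu : GFS Om S30 →* GL (Fin 3) R.A), IsUniversal ρ R ρu →
      D ≤ ringKrullDim (R.A ⧸ Ideal.span {((2 : ℕ) : R.A)}))
    {F : Type} [Field F] [NumberField F] [Algebra F5 F] [Algebra F Om] [IsScalarTower F5 F Om]
    (hreal : ∀ v : InfinitePlace F, v.IsReal)
    (hT : ∀ M : Subgroup ρ.range, M.index = 3 → IsEmpty (NO ρ M →+* F))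
    (S' : Set (HeightOneSpectrum (𝓞 F))) (hSf : S'.Finite)
    (h30 : ∀ v : HeightOneSpectrum (𝓞 F), (30 : 𝓞 F) ∈ v.asIdeal → v ∈ S') :
    ∃ (ρ' : GFS Om S' →* GL (Fin 3) k) (w : InfinitePlace F →
        InfinitePlace (FSmax S' : IntermediateField F Om)),
      IsDatum F Om S' 2 k 3 ρ' w ∧ delta S' ρ' w = 1 ∧
      (∃ (R : CNL 2 k) (ρu : GFS Om S' →* GL (Fin 3) R.A), IsUniversal ρ' R ρu) ∧
      ∀ (R : CNL 2 k) (ρu : GFS Om S' →* GL (Fin 3) R.A), IsUniversal ρ' R ρu →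
        D ≤ ringKrullDim (R.A ⧸ Ideal.span {((2 : ℕ) : R.A)}) := by
  have hS := above30 S' h30
  obtain ⟨φ, w, -, h1, h2, h3, h4⟩ := transfer S30 S' S30_finite hSf two_mem_S30
    (two_of_30 S' h30) hS hreal ρ (full_image ρ h27 hT S' hS) ho hirr h27 D hN
  exact ⟨ρ.comp φ, w, h1, h2, h3, h4⟩

/-- the embedding -/
theorem exists_alg {F : Type} [Field F] [NumberField F] (h5 : ∃ s : F, s ^ 2 = 5) :
    ∃ (_ : Algebra F Om) (_ : IsAlgClosure F Om) (_ : Algebra F5 F), IsScalarTower F5 F Om := by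
  obtain ⟨s, hs⟩ := h5
  let ι : F →ₐ[ℚ] Om := IsAlgClosed.lift
  have hF5 : F5 ≤ ι.fieldRange := by
    unfold F5
    rw [IntermediateField.adjoin_le_iff, Set.singleton_subset_iff]
    have h1 : (ι s) ^ 2 = s5 ^ 2 := by rw [← map_pow, hs, s5_sq, map_ofNat]
    rcases sq_eq_sq_iff_eq_or_eq_neg.1 h1 with h | h
    · exact ⟨s, h⟩
    · exact ⟨-s, by rw [show ι.toRingHom (-s) = -(ι s) from map_neg ι s, h, neg_neg]⟩
  let e : F ≃ₐ[ℚ] ι.fieldRange := AlgEquiv.ofInjectiveField ι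
  let j : F5 →ₐ[ℚ] F := (e.symm : ι.fieldRange →ₐ[ℚ] F).comp (IntermediateField.inclusion hF5)
  let a1 : Algebra F Om := ι.toRingHom.toAlgebra
  let a2 : Algebra F5 F := j.toRingHom.toAlgebra
  have h1 : IsScalarTower ℚ F Om := IsScalarTower.of_algebraMap_eq fun x => (ι.commutes x).symm
  have h2 : Algebra.IsAlgebraic F Om := Algebra.IsAlgebraic.tower_top (K := ℚ) F
  refine ⟨a1, ⟨inferInstance, h2⟩, a2, IsScalarTower.of_algebraMap_eq fun x => ?_⟩
  show (x : Om) = ι (e.symm (IntermediateField.inclusion hF5 x))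
  have h3 : ι (e.symm (IntermediateField.inclusion hF5 x)) =
      ((e (e.symm (IntermediateField.inclusion hF5 x)) : ι.fieldRange) : Om) := rfl
  rw [h3, e.apply_symm_apply]
  rfl

end Pool.Agent.Helper24.BC
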